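import Pool.Agent.MP_10effd_pr.Explore

set_option autoImplicit false
set_option linter.unusedSectionVars false

namespace Pool.MP_10effd_pr

open Finset

variable {V : Type} [Fintype V] [DecidableEq V] {G : SimpleGraph V} [DecidableRel G.Adj] {ε : ℝ}

/-- A partition of the vertices into clusters, given by the centre map. -/
structure Clustering (G : SimpleGraph V) (ctr : V → V) (M : ℕ) : Prop where
  geo : ∀ x, x ≠ ctr x → ∃ y, G.Adj x y ∧ ctr y = ctr x ∧
    G.dist y (ctr x) + 1 = G.dist x (ctr x)
  rad : ∀ x, G.dist x (ctr x) ≤ M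

/-- The cluster with centre `u`. -/
def cl (ctr : V → V) (u : V) : Finset V := Finset.univ.filter fun x => ctr x = u

theorem mem_cl {ctr : V → V} {u x : V} : x ∈ cl ctr u ↔ ctr x = u := by simp [cl]

theorem Clustering.ctr_ctr {ctr : V → V} {M : ℕ} (h : Clustering G ctr M) (hG : G.Connected) :
    ∀ (k : ℕ) (x : V), G.dist x (ctr x) = k → ctr (ctr x) = ctr x := by
  intro k
  induction k with
  | zero =>
    intro x hk
    have : x = ctr x := (hG.dist_eq_zero_iff).mp hk
    rw [← this, ← this]
  | succ k ih =>
    intro x hk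
    have hxu : x ≠ ctr x := by
      intro e
      rw [← e, SimpleGraph.dist_self] at hk
      omega
    obtain ⟨y, _, hy, hd⟩ := h.geo x hxu
    have := ih y (by rw [hy]; omega)
    rwa [hy] at this

theorem Clustering.isCluster {ctr : V → V} {M : ℕ} (h : Clustering G ctr M) {u : V}
    (hu : ctr u = u) : IsCluster G (cl ctr u) u M where
  mem := mem_cl.mpr hu
  geo := by
    intro x hx hxu
    rw [mem_cl] at hx
    obtain ⟨y, h1, h2, h3⟩ := h.geo x (by rw [hx]; exact hxu)
    rw [hx] at h2 h3
    exact ⟨y, mem_cl.mpr h2, h1, h3⟩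
  rad := by
    intro x hx
    rw [mem_cl] at hx
    have := h.rad x
    rwa [hx] at this

/-- Reachability inside `X`. -/
def conn (G : SimpleGraph V) (X : Finset V) : V → V → Prop :=
  Relation.ReflTransGen fun a b => G.Adj a b ∧ a ∈ X ∧ b ∈ X

theorem conn_mono {X X' : Finset V} (h : X ⊆ X') {a b : V} (hab : conn G X a b) :
    conn G X' a b := by
  induction hab with
  | refl => exact Relation.ReflTransGen.refl
  | tail _ h2 ih => exact Relation.ReflTransGen.tail ih ⟨h2.1, h h2.2.1, h h2.2.2⟩

theorem conn_symm {X : Finset V} {a b : V} (hab : conn G X a b) : conn G X b a := by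
  induction hab with
  | refl => exact Relation.ReflTransGen.refl
  | tail _ h2 ih => exact Relation.ReflTransGen.head ⟨h2.1.symm, h2.2.2, h2.2.1⟩ ih

theorem conn_trans {X : Finset V} {a b c : V} (hab : conn G X a b) (hbc : conn G X b c) :
    conn G X a c := Relation.ReflTransGen.trans hab hbc

theorem Clustering.conn_cl {ctr : V → V} {M : ℕ} (h : Clustering G ctr M) (hG : G.Connected) :
    ∀ (k : ℕ) (x : V), G.dist x (ctr x) = k → conn G (cl ctr (ctr x)) x (ctr x) := by
  intro k
  induction k with
  | zero =>
    intro x hk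
    have : x = ctr x := (hG.dist_eq_zero_iff).mp hk
    rw [← this]
    exact Relation.ReflTransGen.refl
  | succ k ih =>
    intro x hk
    have hxu : x ≠ ctr x := by
      intro e
      rw [← e, SimpleGraph.dist_self] at hk
      omega
    obtain ⟨y, hxy, hy, hd⟩ := h.geo x hxu
    have := ih y (by rw [hy]; omega)
    rw [hy] at this
    exact Relation.ReflTransGen.head ⟨hxy, mem_cl.mpr rfl, mem_cl.mpr hy⟩ this

open Classical in
/-- The connected component of `z` in the region `R`. -/
noncomputable def comp (G : SimpleGraph V) (R : Finset V) (z : V) : Finset V :=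
  R.filter fun w => conn G R z w

theorem mem_comp {R : Finset V} {z w : V} : w ∈ comp G R z ↔ w ∈ R ∧ conn G R z w := by
  classical
  simp [comp]

theorem comp_subset {R : Finset V} {z : V} : comp G R z ⊆ R := fun _ hw => (mem_comp.mp hw).1

theorem comp_self {R : Finset V} {z : V} (hz : z ∈ R) : z ∈ comp G R z :=
  mem_comp.mpr ⟨hz, Relation.ReflTransGen.refl⟩

theorem comp_eq {R : Finset V} {z w : V} (hw : w ∈ comp G R z) : comp G R w = comp G R z := by
  ext v
  rw [mem_comp] at hw
  rw [mem_comp, mem_comp]
  constructor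
  · rintro ⟨h1, h2⟩
    exact ⟨h1, conn_trans hw.2 h2⟩
  · rintro ⟨h1, h2⟩
    exact ⟨h1, conn_trans (conn_symm hw.2) h2⟩

theorem comp_conn_aux {R : Finset V} {z w : V} (hw : conn G R z w) :
    conn G (comp G R z) z w := by
  induction hw with
  | refl => exact Relation.ReflTransGen.refl
  | tail h1 h2 ih =>
    exact Relation.ReflTransGen.tail ih ⟨h2.1, mem_comp.mpr ⟨h2.2.1, h1⟩,
      mem_comp.mpr ⟨h2.2.2, Relation.ReflTransGen.tail h1 h2⟩⟩

theorem comp_conn {R : Finset V} {z a b : V} (ha : a ∈ comp G R z) (hb : b ∈ comp G R z) :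
    conn G (comp G R z) a b :=
  conn_trans (conn_symm (comp_conn_aux (mem_comp.mp ha).2)) (comp_conn_aux (mem_comp.mp hb).2)

/-- The cost of the cluster of `u`. -/
noncomputable def cost (G : SimpleGraph V) [DecidableRel G.Adj] (ε : ℝ) (ctr : V → V) (M : ℕ)
    (u : V) : ℝ :=
  2 * (M + 1) / (1 - ε) * Wt G ε (cl ctr u) * (2 + harm (Fintype.card V))

theorem cost_nonneg (h1 : ε < 1) (ctr : V → V) (M : ℕ) (u : V) : 0 ≤ cost G ε ctr M u := by
  have := Wt_nonneg (G := G) h1 (cl ctr u)
  have := harm_nonneg (Fintype.card V)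
  have : 0 < 1 - ε := by linarith
  unfold cost
  positivity

theorem cov_saturated (h0 : 0 < ε) (h1 : ε < 1) (hG : G.Connected)
    (hd : ∀ x, 0 < G.degree x) {ctr : V → V} {M : ℕ} (hc : Clustering G ctr M) :
    ∀ (n : ℕ) (X : Finset V), X.card ≤ n → (∀ x ∈ X, ∀ y ∈ X, conn G X x y) →
      (∀ x ∈ X, ∀ y, ctr y = ctr x → y ∈ X) → ∀ y ∈ X,
      Cov G ε y X (∑ u ∈ X.filter (fun u => ctr u = u), cost G ε ctr M u) := by
  intro n
  induction n with
  | zero =>
    intro X hX _ _ y hy
    have : X = ∅ := Finset.card_eq_zero.mp (by omega)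
    rw [this] at hy
    simp at hy
  | succ n ih =>
    intro X hXn hX hsat y hy
    classical
    have hctr : ∀ x, ctr (ctr x) = ctr x := fun x => hc.ctr_ctr hG _ x rfl
    set u := ctr y with hu
    set C := cl ctr u with hC
    have huu : ctr u = u := hctr y
    have huX : u ∈ X := hsat y hy u (by rw [huu])
    have hCX : C ⊆ X := by
      intro x hx
      rw [hC, mem_cl] at hx
      exact hsat y hy x hx
    have hyC : y ∈ C := mem_cl.mpr rfl
    have huC : u ∈ C := mem_cl.mpr huu
    set R := X \ C with hR
    have hRX : R ⊆ X := Finset.sdiff_subset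
    have hRC : ∀ z ∈ R, z ∉ C := fun z hz => (Finset.mem_sdiff.mp hz).2
    have hRcard : R.card < X.card := Finset.card_lt_card (by
      rw [Finset.ssubset_iff_of_subset hRX]
      exact ⟨y, hy, fun hyR => hRC y hyR hyC⟩)
    -- the components
    have hKsat : ∀ z ∈ R, ∀ x ∈ comp G R z, ∀ x', ctr x' = ctr x → x' ∈ comp G R z := by
      intro z hz x hx x' hx'
      have hxR := comp_subset hx
      have hclR : cl ctr (ctr x) ⊆ R := by
        intro w hw
        rw [mem_cl] at hw
        rw [hR, Finset.mem_sdiff]
        refine ⟨hsat x (hRX hxR) w hw, ?_⟩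
        intro hwC
        rw [hC, mem_cl] at hwC
        apply hRC x hxR
        rw [hC, mem_cl, ← hw, hwC]
      have c1 : conn G R x (ctr x) := conn_mono hclR (hc.conn_cl hG _ x rfl)
      have c2 : conn G R x' (ctr x) := by
        have := hc.conn_cl hG _ x' rfl
        rw [hx'] at this
        exact conn_mono hclR this
      rw [mem_comp] at hx ⊢
      exact ⟨hclR (mem_cl.mpr hx'), conn_trans hx.2 (conn_trans c1 (conn_symm c2))⟩
    have hKadj : ∀ z ∈ R, ∃ g ∈ comp G R z, ∃ c ∈ C, G.Adj g c := by
      intro z hz
      by_contra hcon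
      push Not at hcon
      have : ∀ w, conn G X z w → w ∈ comp G R z := by
        intro w hw
        induction hw with
        | refl => exact comp_self hz
        | @tail b c h1 h2 ih2 =>
          have hcC : c ∉ C := fun hcC => hcon b ih2 c hcC h2.1
          have hcR : c ∈ R := Finset.mem_sdiff.mpr ⟨h2.2.2, hcC⟩
          rw [mem_comp] at ih2 ⊢
          exact ⟨hcR, Relation.ReflTransGen.tail ih2.2 ⟨h2.1, ih2.1, hcR⟩⟩
      have hyR := comp_subset (this y (hX z (hRX hz) y hy))
      exact hRC y hyR hyC
    -- gates
    let pick : Finset V → V := fun K => if h : ∃ g ∈ K, ∃ c ∈ C, G.Adj g c then h.choose else y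
    have hpick : ∀ z ∈ R, pick (comp G R z) ∈ comp G R z ∧ ∃ c ∈ C, G.Adj (pick (comp G R z)) c := by
      intro z hz
      have h := hKadj z hz
      simp only [pick, dif_pos h]
      exact h.choose_spec
    set gates := R.image fun z => pick (comp G R z) with hgates
    have hgate : ∀ g ∈ gates, g ∈ R ∧ pick (comp G R g) = g ∧ ∃ c ∈ C, G.Adj g c := by
      intro g hg
      rw [hgates, Finset.mem_image] at hg
      obtain ⟨z, hz, rfl⟩ := hg
      have := hpick z hz
      refine ⟨comp_subset this.1, ?_, this.2⟩
      rw [comp_eq this.1]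
    set Y := C ∪ gates with hY
    have hdisj : Disjoint C gates := by
      rw [Finset.disjoint_left]
      intro x hx hx'
      exact hRC x (hgate x hx').1 hx
    have hcov : ∀ z ∈ Y, Cov G ε z (if z ∈ C then {z} else comp G R z)
        (if z ∈ C then 0 else ∑ w ∈ (comp G R z).filter (fun u => ctr u = u),
          cost G ε ctr M w) := by
      intro z hz
      by_cases hzC : z ∈ C
      · rw [if_pos hzC, if_pos hzC]; exact Cov.self z
      · rw [if_neg hzC, if_neg hzC]
        have hzg : z ∈ gates := by
          rw [hY, Finset.mem_union] at hz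
          exact hz.resolve_left hzC
        obtain ⟨hzR, _, _⟩ := hgate z hzg
        apply ih (comp G R z)
        · have := Finset.card_le_card (comp_subset (G := G) (R := R) (z := z))
          omega
        · intro a ha b hb; exact comp_conn ha hb
        · exact hKsat z hzR
        · exact comp_self hzR
    have key := explore_cluster h0 h1 hG hd (hc.isCluster huu) (Y := Y) (by
        intro z hz
        rw [hY, Finset.mem_union] at hz
        rcases hz with hz | hz
        · exact Or.inl hz
        · exact Or.inr (hgate z hz).2.2) (g := y) (by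
          rw [hY]; exact Finset.mem_union_left _ hyC)
      (A := fun z => if z ∈ C then {z} else comp G R z)
      (q := fun z => if z ∈ C then 0 else ∑ w ∈ (comp G R z).filter (fun u => ctr u = u),
          cost G ε ctr M w)
      (by
        intro z
        split_ifs
        · exact le_rfl
        · exact Finset.sum_nonneg fun w _ => cost_nonneg h1 ctr M w)
      hcov X (by
        intro b hb
        by_cases hbC : b ∈ C
        · refine ⟨b, Finset.mem_union_left _ hbC, ?_⟩
          rw [if_pos hbC]
          exact Finset.mem_singleton_self b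
        · have hbR : b ∈ R := Finset.mem_sdiff.mpr ⟨hb, hbC⟩
          have := hpick b hbR
          refine ⟨pick (comp G R b), Finset.mem_union_right _
            (Finset.mem_image.mpr ⟨b, hbR, rfl⟩), ?_⟩
          rw [if_neg (hRC _ (comp_subset this.1)), comp_eq this.1]
          exact comp_self hbR)
    refine key.mono ?_
    rw [hY, Finset.sum_union hdisj]
    have s1 : ∑ z ∈ C, (if z ∈ C then (0 : ℝ) else
        ∑ w ∈ (comp G R z).filter (fun u => ctr u = u), cost G ε ctr M w) = 0 :=
      Finset.sum_eq_zero fun z hz => by rw [if_pos hz]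
    have s2 : ∑ z ∈ gates, (if z ∈ C then (0 : ℝ) else
        ∑ w ∈ (comp G R z).filter (fun u => ctr u = u), cost G ε ctr M w)
        ≤ ∑ w ∈ R.filter (fun u => ctr u = u), cost G ε ctr M w := by
      have e1 : ∑ z ∈ gates, (if z ∈ C then (0 : ℝ) else
        ∑ w ∈ (comp G R z).filter (fun u => ctr u = u), cost G ε ctr M w)
          = ∑ z ∈ gates, ∑ w ∈ (comp G R z).filter (fun u => ctr u = u), cost G ε ctr M w :=
        Finset.sum_congr rfl fun z hz => by rw [if_neg (hRC z (hgate z hz).1)]
      rw [e1, ← Finset.sum_biUnion]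
      · apply Finset.sum_le_sum_of_subset_of_nonneg
        · intro w hw
          rw [Finset.mem_biUnion] at hw
          obtain ⟨z, _, hw⟩ := hw
          rw [Finset.mem_filter] at hw ⊢
          exact ⟨comp_subset hw.1, hw.2⟩
        · intro w _ _
          exact cost_nonneg h1 ctr M w
      · intro z hz z' hz' hne
        rw [Function.onFun, Finset.disjoint_left]
        intro w hw hw'
        apply hne
        have h2 := comp_eq (Finset.mem_filter.mp hw).1
        have h3 := comp_eq (Finset.mem_filter.mp hw').1
        have h4 := (hgate z hz).2.1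
        have h5 := (hgate z' hz').2.1
        rw [← h4, ← h5, ← h2, ← h3]
    have s3 : ∑ w ∈ R.filter (fun u => ctr u = u), cost G ε ctr M w + cost G ε ctr M u
        ≤ ∑ w ∈ X.filter (fun u => ctr u = u), cost G ε ctr M w := by
      have hnot : u ∉ R.filter (fun u => ctr u = u) := fun h =>
        hRC u (Finset.mem_filter.mp h).1 huC
      rw [add_comm, ← Finset.sum_insert hnot]
      apply Finset.sum_le_sum_of_subset_of_nonneg
      · intro w hw
        rw [Finset.mem_insert] at hw
        rcases hw with rfl | hw
        · exact Finset.mem_filter.mpr ⟨huX, huu⟩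
        · rw [Finset.mem_filter] at hw ⊢
          exact ⟨hRX hw.1, hw.2⟩
      · intro w _ _
        exact cost_nonneg h1 ctr M w
    have s4 : cost G ε ctr M u
        = 2 * (M + 1) / (1 - ε) * Wt G ε C * (2 + harm (Fintype.card V)) := rfl
    rw [s1, zero_add]
    linarith

/-- The bound obtained from a clustering. -/
theorem val_le_of_clustering (h0 : 0 < ε) (h1 : ε < 1) (hG : G.Connected)
    (hd : ∀ x, 0 < G.degree x) {ctr : V → V} {M : ℕ} (hc : Clustering G ctr M) (m : ℕ) (v : V) :
    val G ε m v {v} ≤ ∑ u ∈ Finset.univ.filter (fun u => ctr u = u), cost G ε ctr M u := by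
  have hconn : ∀ x ∈ (Finset.univ : Finset V), ∀ y ∈ (Finset.univ : Finset V),
      conn G Finset.univ x y := by
    intro x _ y _
    obtain ⟨p⟩ := hG.preconnected x y
    induction p with
    | nil => exact Relation.ReflTransGen.refl
    | cons h p ih =>
      exact Relation.ReflTransGen.head ⟨h, Finset.mem_univ _, Finset.mem_univ _⟩
        (ih (Finset.mem_univ _) (Finset.mem_univ _))
  have := cov_saturated h0 h1 hG hd hc _ Finset.univ le_rfl hconn (fun x _ y _ => Finset.mem_univ y)
    v (Finset.mem_univ v) m {v} (Finset.mem_singleton_self v)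
  have e : ({v} : Finset V) ∪ Finset.univ = Finset.univ := by
    ext; simp
  rw [e, val_univ, add_zero] at this
  exact this

end Pool.MP_10effd_pr
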