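import Pool.Agent.MP_10effd_pr.Val

set_option autoImplicit false
set_option linter.unusedSectionVars false

namespace Pool.MP_10effd_pr

open Finset

variable {V : Type} [Fintype V] [DecidableEq V] {G : SimpleGraph V} [DecidableRel G.Adj] {ε : ℝ}

/-- Total weight of the neighbours of `x`. -/
noncomputable def nsum (G : SimpleGraph V) [DecidableRel G.Adj] (a : V → ℝ) (x : V) : ℝ :=
  ∑ y ∈ G.neighborFinset x, a y

/-- The reversible kernel attached to the vertex weights `a`. -/
noncomputable def ker (G : SimpleGraph V) [DecidableRel G.Adj] (a : V → ℝ) (x y : V) : ℝ :=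
  if G.Adj x y then a y / nsum G a x else 0

theorem nsum_pos {a : V → ℝ} (ha : ∀ x, 0 < a x) (hd : ∀ x, 0 < G.degree x) (x : V) :
    0 < nsum G a x := by
  apply Finset.sum_pos (fun y _ => ha y)
  rw [← Finset.card_pos, SimpleGraph.card_neighborFinset_eq_degree]
  exact hd x

theorem ker_isKer {a : V → ℝ} (ha : ∀ x, 0 < a x) (hd : ∀ x, 0 < G.degree x) (h1 : ε < 1)
    (hr : ∀ x y y', G.Adj x y → G.Adj x y' → (1 - ε) * a y' ≤ a y) :
    Ker G ε (ker G a) where
  supp x y h := by rw [ker, if_neg h]
  lower x y h := by
    rw [ker, if_pos h]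
    have hdeg : (0 : ℝ) < G.degree x := by exact_mod_cast hd x
    rw [div_le_div_iff₀ hdeg (nsum_pos ha hd x)]
    have : (1 - ε) * nsum G a x ≤ ∑ _y' ∈ G.neighborFinset x, a y := by
      rw [nsum, Finset.mul_sum]
      apply Finset.sum_le_sum
      intro y' hy'
      rw [SimpleGraph.mem_neighborFinset] at hy'
      exact hr x y y' h hy'
    rwa [Finset.sum_const, SimpleGraph.card_neighborFinset_eq_degree, nsmul_eq_mul,
      mul_comm (G.degree x : ℝ)] at this
  sum_one x := by
    have : ∑ y, ker G a x y = ∑ y ∈ G.neighborFinset x, a y / nsum G a x := by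
      symm
      rw [← Finset.sum_subset (Finset.subset_univ (G.neighborFinset x))]
      · apply Finset.sum_congr rfl
        intro y hy
        rw [SimpleGraph.mem_neighborFinset] at hy
        rw [ker, if_pos hy]
      · intro y _ hy
        rw [SimpleGraph.mem_neighborFinset] at hy
        rw [ker, if_neg hy]
    rw [this, ← Finset.sum_div]
    exact div_self (nsum_pos ha hd x).ne'

theorem max_principle {P : V → V → ℝ} (hP : Ker G ε P) (h1 : ε < 1) (hG : G.Connected)
    (hd : ∀ x, 0 < G.degree x) {z : V} {h : V → ℝ} (hz : h z = 0)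
    (hh : ∀ x, x ≠ z → h x ≤ ∑ y, P x y * h y) (x : V) : h x ≤ 0 := by
  haveI : Nonempty V := ⟨x⟩
  obtain ⟨x₀, hx₀⟩ := Finite.exists_max h
  have main : ∀ u v : V, G.Walk u v → v = z → h u = h x₀ → h z = h x₀ := by
    intro u v p
    induction p with
    | nil => intro e e'; rw [← e]; exact e'
    | @cons u v w huv p ih =>
      intro e e'
      by_cases huz : u = z
      · rw [← huz]; exact e'
      · apply ih e
        by_contra hne
        have hlt : h v < h x₀ := lt_of_le_of_ne (hx₀ v) hne
        have hPpos : 0 < P u v := by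
          refine lt_of_lt_of_le ?_ (hP.lower u v huv)
          have hdeg : (0 : ℝ) < G.degree u := by exact_mod_cast hd u
          have : 0 < 1 - ε := by linarith
          positivity
        have : ∑ y, P u y * h y < ∑ y, P u y * h x₀ := by
          apply Finset.sum_lt_sum
          · intro y _
            exact mul_le_mul_of_nonneg_left (hx₀ y) (hP.nonneg h1 u y)
          · exact ⟨v, Finset.mem_univ v, mul_lt_mul_of_pos_left hlt hPpos⟩
        rw [← Finset.sum_mul, hP.sum_one, one_mul] at this
        have := hh u huz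
        linarith
  obtain ⟨p⟩ := hG.preconnected x₀ z
  have := main x₀ z p rfl rfl
  rw [hz] at this
  linarith [hx₀ x]

/-- Existence of the hitting time function. -/
theorem exists_hit {P : V → V → ℝ} (hP : Ker G ε P) (h1 : ε < 1) (hG : G.Connected)
    (hd : ∀ x, 0 < G.degree x) (z : V) :
    ∃ h : V → ℝ, h z = 0 ∧ (∀ x, 0 ≤ h x) ∧ ∀ x, x ≠ z → h x = 1 + ∑ y, P x y * h y := by
  let L : (V → ℝ) →ₗ[ℝ] (V → ℝ) :=
    { toFun := fun h x => if x = z then h z else h x - ∑ y, P x y * h y
      map_add' := by
        intro f g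
        funext x
        simp only [Pi.add_apply, mul_add, Finset.sum_add_distrib]
        split_ifs <;> ring
      map_smul' := by
        intro c f
        funext x
        simp only [Pi.smul_apply, smul_eq_mul, RingHom.id_apply]
        have : ∑ y, P x y * (c * f y) = c * ∑ y, P x y * f y := by
          rw [Finset.mul_sum]
          exact Finset.sum_congr rfl fun y _ => by ring
        rw [this]
        split_ifs <;> ring }
  have hLap : ∀ (h : V → ℝ) (x : V), L h x = if x = z then h z else h x - ∑ y, P x y * h y :=
    fun h x => rfl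
  have hinj : Function.Injective L := by
    rw [← LinearMap.ker_eq_bot, LinearMap.ker_eq_bot']
    intro f hf
    have hfz : f z = 0 := by
      have := congrFun hf z
      rw [hLap, if_pos rfl] at this
      exact this
    have hfx : ∀ x, x ≠ z → f x = ∑ y, P x y * f y := by
      intro x hx
      have := congrFun hf x
      rw [hLap, if_neg hx] at this
      simp only [Pi.zero_apply] at this
      linarith
    have hle := max_principle hP h1 hG hd hfz (fun x hx => (hfx x hx).le)
    have hge := max_principle hP h1 hG hd (z := z) (h := fun x => - f x) (by simp [hfz]) (fun x hx => by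
      simp only [mul_neg, Finset.sum_neg_distrib]
      rw [← hfx x hx])
    funext x
    simp only [Pi.zero_apply]
    have := hle x
    have := hge x
    linarith
  have hsurj : Function.Surjective L := LinearMap.injective_iff_surjective.mp hinj
  obtain ⟨h, hh⟩ := hsurj (fun x => if x = z then 0 else 1)
  have hz : h z = 0 := by
    have := congrFun hh z
    rw [hLap, if_pos rfl] at this
    simpa using this
  have hx : ∀ x, x ≠ z → h x = 1 + ∑ y, P x y * h y := by
    intro x hx
    have := congrFun hh x
    rw [hLap, if_neg hx] at this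
    simp only [if_neg hx] at this
    linarith
  refine ⟨h, hz, ?_, hx⟩
  intro x
  have := max_principle hP h1 hG hd (z := z) (h := fun x => - h x) (by simp [hz]) (fun x hxz => by
    simp only [mul_neg, Finset.sum_neg_distrib]
    rw [hx x hxz]
    linarith) x
  linarith

/-- Total weight of the network. -/
noncomputable def totW (G : SimpleGraph V) [DecidableRel G.Adj] (a : V → ℝ) : ℝ :=
  ∑ x, a x * nsum G a x

theorem totW_nonneg {a : V → ℝ} (ha : ∀ x, 0 < a x) : 0 ≤ totW G a :=
  Finset.sum_nonneg fun x _ => mul_nonneg (ha x).le (Finset.sum_nonneg fun y _ => (ha y).le)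

/-- The flux bound: across an edge the hitting time changes by at most
total weight / conductance. -/
theorem edge_bound {a : V → ℝ} (ha : ∀ x, 0 < a x) (hd : ∀ x, 0 < G.degree x) {z : V}
    {h : V → ℝ} (hz : h z = 0) (hpos : ∀ x, 0 ≤ h x)
    (hh : ∀ x, x ≠ z → h x = 1 + ∑ y, ker G a x y * h y) {u v : V} (huv : G.Adj u v) :
    a u * a v * (h u - h v) ≤ totW G a := by
  by_cases hlt : h v < h u
  swap
  · have : h u - h v ≤ 0 := by linarith
    have h2 : 0 ≤ a u * a v := mul_nonneg (ha u).le (ha v).le
    nlinarith [totW_nonneg (G := G) ha]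
  set c : V → V → ℝ := fun x y => if G.Adj x y then a x * a y else 0 with hc
  have hcs : ∀ x y, c x y = c y x := by
    intro x y
    simp only [hc, G.adj_comm x y, mul_comm (a x)]
  have hc0 : ∀ x y, 0 ≤ c x y := by
    intro x y
    simp only [hc]
    split_ifs
    · exact mul_nonneg (ha x).le (ha y).le
    · exact le_rfl
  -- the equation in divergence form
  have heq : ∀ x, x ≠ z → ∑ y, c x y * (h x - h y) = a x * nsum G a x := by
    intro x hx
    have hA := nsum_pos ha hd x
    have e1 : ∀ y, c x y = a x * nsum G a x * ker G a x y := by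
      intro y
      simp only [hc, ker]
      split_ifs
      · field_simp
      · simp
    have e2 : ∑ y, ker G a x y = 1 := by
      have : ∑ y, ker G a x y = ∑ y ∈ G.neighborFinset x, a y / nsum G a x := by
        symm
        rw [← Finset.sum_subset (Finset.subset_univ (G.neighborFinset x))]
        · apply Finset.sum_congr rfl
          intro y hy
          rw [SimpleGraph.mem_neighborFinset] at hy
          rw [ker, if_pos hy]
        · intro y _ hy
          rw [SimpleGraph.mem_neighborFinset] at hy
          rw [ker, if_neg hy]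
      rw [this, ← Finset.sum_div]
      exact div_self hA.ne'
    have e3 : ∀ y, c x y * (h x - h y)
        = a x * nsum G a x * (ker G a x y * h x - ker G a x y * h y) := by
      intro y; rw [e1 y]; ring
    simp only [e3]
    rw [← Finset.mul_sum, Finset.sum_sub_distrib, ← Finset.sum_mul, e2, one_mul]
    have := hh x hx
    have : h x - ∑ y, ker G a x y * h y = 1 := by linarith
    rw [this, mul_one]
  -- test function
  set φ : V → ℝ := fun x => if h u ≤ h x then 1 else 0 with hφ
  have hφz : φ z = 0 := by
    simp only [hφ]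
    rw [if_neg]
    rw [hz]
    have := hpos v
    linarith
  have D1 : ∑ x, φ x * ∑ y, c x y * (h x - h y) ≤ totW G a := by
    apply Finset.sum_le_sum
    intro x _
    by_cases hx : x = z
    · rw [hx, hφz, zero_mul]
      exact mul_nonneg (ha z).le (nsum_pos ha hd z).le
    · rw [heq x hx]
      have h0 : 0 ≤ a x * nsum G a x := mul_nonneg (ha x).le (nsum_pos ha hd x).le
      simp only [hφ]
      split_ifs
      · linarith
      · linarith
  have D2 : ∑ x, ∑ y, c x y * ((φ x - φ y) * (h x - h y))
      = 2 * ∑ x, φ x * ∑ y, c x y * (h x - h y) := by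
    have e1 : ∑ x, ∑ y, c x y * ((φ x - φ y) * (h x - h y))
        = ∑ x, ∑ y, φ x * (c x y * (h x - h y)) + ∑ x, ∑ y, φ y * (c y x * (h y - h x)) := by
      rw [← Finset.sum_add_distrib]
      apply Finset.sum_congr rfl
      intro x _
      rw [← Finset.sum_add_distrib]
      apply Finset.sum_congr rfl
      intro y _
      rw [hcs y x]
      ring
    have e2 : ∑ x, ∑ y, φ y * (c y x * (h y - h x)) = ∑ x, ∑ y, φ x * (c x y * (h x - h y)) :=
      Finset.sum_comm
    rw [e1, e2, two_mul]
    simp only [Finset.mul_sum]
  have D3 : ∀ x y, 0 ≤ c x y * ((φ x - φ y) * (h x - h y)) := by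
    intro x y
    apply mul_nonneg (hc0 x y)
    simp only [hφ]
    split_ifs with p1 p2 p2
    · simp
    · have : h y < h x := by linarith [not_le.mp p2]
      rw [sub_zero, one_mul]
      linarith
    · have : h x < h y := by linarith [not_le.mp p1]
      nlinarith
    · simp
  have hφu : φ u = 1 := by simp [hφ]
  have hφv : φ v = 0 := by
    simp only [hφ]
    rw [if_neg (not_le.mpr hlt)]
  have D4 : 2 * (a u * a v * (h u - h v))
      ≤ ∑ x, ∑ y, c x y * ((φ x - φ y) * (h x - h y)) := by
    have hne : u ≠ v := G.ne_of_adj huv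
    have s1 : c u v * ((φ u - φ v) * (h u - h v)) ≤ ∑ y, c u y * ((φ u - φ y) * (h u - h y)) :=
      Finset.single_le_sum (f := fun y => c u y * ((φ u - φ y) * (h u - h y)))
        (fun y _ => D3 u y) (Finset.mem_univ v)
    have s2 : c v u * ((φ v - φ u) * (h v - h u)) ≤ ∑ y, c v y * ((φ v - φ y) * (h v - h y)) :=
      Finset.single_le_sum (f := fun y => c v y * ((φ v - φ y) * (h v - h y)))
        (fun y _ => D3 v y) (Finset.mem_univ u)
    have s3 : ∑ x ∈ ({u, v} : Finset V), ∑ y, c x y * ((φ x - φ y) * (h x - h y))
        ≤ ∑ x, ∑ y, c x y * ((φ x - φ y) * (h x - h y)) :=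
      Finset.sum_le_sum_of_subset_of_nonneg (Finset.subset_univ _)
        (fun x _ _ => Finset.sum_nonneg fun y _ => D3 x y)
    rw [Finset.sum_pair hne] at s3
    have s4 : c u v * ((φ u - φ v) * (h u - h v)) + c v u * ((φ v - φ u) * (h v - h u))
        ≤ ∑ x, ∑ y, c x y * ((φ x - φ y) * (h x - h y)) := by linarith
    have t1 : c u v = a u * a v := by simp only [hc, if_pos huv]
    have t2 : c v u = a u * a v := by rw [hcs v u, t1]
    rw [t1, t2, hφu, hφv] at s4
    refine le_trans (le_of_eq ?_) s4
    ring
  linarith

theorem edge_bound_abs {a : V → ℝ} (ha : ∀ x, 0 < a x) (hd : ∀ x, 0 < G.degree x) {z : V}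
    {h : V → ℝ} (hz : h z = 0) (hpos : ∀ x, 0 ≤ h x)
    (hh : ∀ x, x ≠ z → h x = 1 + ∑ y, ker G a x y * h y) {u v : V} (huv : G.Adj u v) {c : ℝ}
    (hc0 : 0 < c) (hc : c ≤ a u * a v) :
    |h u - h v| ≤ totW G a / c := by
  rw [le_div_iff₀ hc0, abs_eq_max_neg]
  have e1 := edge_bound ha hd hz hpos hh huv
  have e2 := edge_bound ha hd hz hpos hh huv.symm
  have W0 := totW_nonneg (G := G) ha
  rcases le_total (h u - h v) (-(h u - h v)) with hle | hle
  · rw [max_eq_right hle]
    have : -(h u - h v) * c ≤ -(h u - h v) * (a u * a v) :=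
      mul_le_mul_of_nonneg_left hc (by linarith)
    nlinarith
  · rw [max_eq_left hle]
    have : (h u - h v) * c ≤ (h u - h v) * (a u * a v) :=
      mul_le_mul_of_nonneg_left hc (by linarith)
    nlinarith

end Pool.MP_10effd_pr
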