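import Pool.Agent.MP_10effd_pr.Interrupt
import Pool.Agent.MP_10effd_pr.Network

set_option autoImplicit false
set_option linter.unusedSectionVars false

namespace Pool.MP_10effd_pr

open Finset

variable {V : Type} [Fintype V] [DecidableEq V] {G : SimpleGraph V} [DecidableRel G.Adj] {ε : ℝ}

/-- Graph distance from `x` to the set `C`. -/
noncomputable def dset (G : SimpleGraph V) (C : Finset V) (x : V) : ℕ :=
  sInf ((fun c => G.dist x c) '' (C : Set V))

theorem dset_le {C : Finset V} {x c : V} (hc : c ∈ C) : dset G C x ≤ G.dist x c :=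
  Nat.sInf_le ⟨c, hc, rfl⟩

theorem exists_dset {C : Finset V} (hC : C.Nonempty) (x : V) :
    ∃ c ∈ C, G.dist x c = dset G C x := by
  obtain ⟨c, hc⟩ := hC
  have := Nat.sInf_mem (s := (fun c => G.dist x c) '' (C : Set V)) ⟨_, c, hc, rfl⟩
  obtain ⟨d, hd, hd'⟩ := this
  exact ⟨d, hd, hd'⟩

theorem dset_mem {C : Finset V} {x : V} (hx : x ∈ C) : dset G C x = 0 := by
  have := dset_le (G := G) (x := x) hx
  rw [SimpleGraph.dist_self] at this
  omega

theorem dset_adj (hG : G.Connected) {C : Finset V} (hC : C.Nonempty) {x y : V}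
    (h : G.Adj x y) : dset G C y ≤ dset G C x + 1 := by
  obtain ⟨c, hc, hd⟩ := exists_dset (G := G) hC x
  have h1 := dset_le (G := G) (x := y) hc
  have h2 : G.dist y c ≤ G.dist y x + G.dist x c := hG.dist_triangle
  have h3 : G.dist y x = 1 := SimpleGraph.dist_eq_one_iff_adj.mpr h.symm
  omega

/-- The geometric mass seen from the set `C`. -/
noncomputable def Wt (G : SimpleGraph V) [DecidableRel G.Adj] (ε : ℝ) (C : Finset V) : ℝ :=
  ∑ x, (G.degree x : ℝ) * (1 - ε) ^ (dset G C x)

theorem Wt_nonneg (h1 : ε < 1) (C : Finset V) : 0 ≤ Wt G ε C :=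
  Finset.sum_nonneg fun x _ => mul_nonneg (Nat.cast_nonneg _) (pow_nonneg (by linarith) _)

/-- A cluster: a set `C` with a centre `u` such that geodesics towards `u` stay inside and
the radius is at most `M`. -/
structure IsCluster (G : SimpleGraph V) (C : Finset V) (u : V) (M : ℕ) : Prop where
  mem : u ∈ C
  geo : ∀ x ∈ C, x ≠ u → ∃ y ∈ C, G.Adj x y ∧ G.dist y u + 1 = G.dist x u
  rad : ∀ x ∈ C, G.dist x u ≤ M

theorem IsCluster.path_bound {C : Finset V} {u : V} {M : ℕ} (hC : IsCluster G C u M)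
    (hG : G.Connected) {h : V → ℝ} {b : ℝ}
    (hb : ∀ x ∈ C, ∀ y ∈ C, G.Adj x y → |h x - h y| ≤ b) :
    ∀ (k : ℕ) (x : V), x ∈ C → G.dist x u = k → |h x - h u| ≤ k * b := by
  intro k
  induction k with
  | zero =>
    intro x _ hk
    have : x = u := (hG.dist_eq_zero_iff).mp hk
    rw [this]; simp
  | succ k ih =>
    intro x hx hk
    have hxu : x ≠ u := by
      rintro rfl
      rw [SimpleGraph.dist_self] at hk
      omega
    obtain ⟨y, hy, hxy, hd⟩ := hC.geo x hx hxu
    have h1 := ih y hy (by omega)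
    have h2 := hb x hx y hy hxy
    have : h x - h u = (h x - h y) + (h y - h u) := by ring
    rw [this]
    refine (abs_add_le _ _).trans ?_
    push_cast
    linarith

/-- Explore a cluster together with gates into the adjacent regions. -/
theorem explore_cluster (h0 : 0 < ε) (h1 : ε < 1) (hG : G.Connected)
    (hd : ∀ x, 0 < G.degree x) {C : Finset V} {u : V} {M : ℕ} (hC : IsCluster G C u M)
    {Y : Finset V} (hY : ∀ y ∈ Y, y ∈ C ∨ ∃ c ∈ C, G.Adj y c) {g : V} (hg : g ∈ Y)
    {A : V → Finset V} {q : V → ℝ} (hq : ∀ z, 0 ≤ q z)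
    (hcov : ∀ z ∈ Y, Cov G ε z (A z) (q z)) (B : Finset V)
    (hB : ∀ b ∈ B, ∃ z ∈ Y, b ∈ A z) :
    Cov G ε g B (∑ z ∈ Y, q z
      + 2 * (M + 1) / (1 - ε) * Wt G ε C * (2 + harm (Fintype.card V))) := by
  have hCne : C.Nonempty := ⟨u, hC.mem⟩
  set θ : ℝ := Real.sqrt (1 - ε) with hθ
  have hθ2 : θ ^ 2 = 1 - ε := Real.sq_sqrt (by linarith)
  have hθ0 : 0 < θ := Real.sqrt_pos.mpr (by linarith)
  have hθ1 : θ < 1 := by
    nlinarith
  set a : V → ℝ := fun x => θ ^ (dset G C x) with ha
  have ha0 : ∀ x, 0 < a x := fun x => pow_pos hθ0 _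
  have hr : ∀ x y y', G.Adj x y → G.Adj x y' → (1 - ε) * a y' ≤ a y := by
    intro x y y' hxy hxy'
    have e1 := dset_adj hG hCne hxy
    have e2 := dset_adj hG hCne hxy'.symm
    simp only [ha]
    rw [← hθ2, ← pow_add]
    exact pow_le_pow_of_le_one hθ0.le hθ1.le (by omega)
  have hP := ker_isKer (ε := ε) ha0 hd h1 hr
  -- hitting functions
  choose h hz hpos hh using exists_hit hP h1 hG hd
  -- total weight
  have hW : totW G a ≤ Wt G ε C / θ := by
    rw [le_div_iff₀ hθ0, totW, Wt, Finset.sum_mul]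
    apply Finset.sum_le_sum
    intro x _
    have e1 : nsum G a x * θ ≤ G.degree x * a x := by
      rw [nsum, Finset.sum_mul, ← SimpleGraph.card_neighborFinset_eq_degree, ← nsmul_eq_mul]
      apply Finset.sum_le_card_nsmul
      intro y hy
      rw [SimpleGraph.mem_neighborFinset] at hy
      have e2 := dset_adj hG hCne hy.symm
      simp only [ha]
      rw [← pow_succ]
      exact pow_le_pow_of_le_one hθ0.le hθ1.le e2
    have e3 : (1 - ε) ^ dset G C x = a x * a x := by
      simp only [ha]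
      rw [← hθ2, ← pow_mul, ← pow_add, two_mul]
    rw [e3]
    have := mul_le_mul_of_nonneg_left e1 (ha0 x).le
    linarith
  -- edge bounds
  have hb : ∀ z x y, G.Adj x y → θ ≤ a x * a y → |h z x - h z y| ≤ totW G a / θ :=
    fun z x y hxy hc => edge_bound_abs ha0 hd (hz z) (hpos z) (hh z) hxy hθ0 hc
  set b := totW G a / θ with hbdef
  have hb0 : 0 ≤ b := div_nonneg (totW_nonneg ha0) hθ0.le
  have haC : ∀ x ∈ C, a x = 1 := by
    intro x hx
    simp only [ha, dset_mem (G := G) hx, pow_zero]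
  have hbC : ∀ z, ∀ x ∈ C, ∀ y ∈ C, G.Adj x y → |h z x - h z y| ≤ b := by
    intro z x hx y hy hxy
    apply hb z x y hxy
    rw [haC x hx, haC y hy]
    linarith
  have hcen : ∀ z, ∀ x ∈ C, |h z x - h z u| ≤ M * b := by
    intro z x hx
    refine (hC.path_bound hG (hbC z) _ x hx rfl).trans ?_
    apply mul_le_mul_of_nonneg_right _ hb0
    exact_mod_cast hC.rad x hx
  have hcen' : ∀ z, ∀ y ∈ Y, |h z y - h z u| ≤ (M + 1) * b := by
    intro z y hy
    rcases hY y hy with hyC | ⟨c, hc, hyc⟩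
    · refine (hcen z y hyC).trans ?_
      nlinarith
    · have e1 : |h z y - h z c| ≤ b := by
        apply hb z y c hyc
        rw [haC c hc, mul_one]
        have e2 := dset_adj hG hCne hyc.symm
        rw [dset_mem hc] at e2
        have : θ ^ 1 ≤ θ ^ (dset G C y) := pow_le_pow_of_le_one hθ0.le hθ1.le (by omega)
        simpa using this
      have e2 := hcen z c hc
      have : h z y - h z u = (h z y - h z c) + (h z c - h z u) := by ring
      rw [this]
      refine (abs_add_le _ _).trans ?_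
      linarith
  have hle : ∀ z ∈ Y, ∀ y ∈ Y, h z y ≤ 2 * (M + 1) * b := by
    intro z hzY y hyY
    have e1 := hcen' z y hyY
    have e2 := hcen' z z hzY
    rw [hz z, zero_sub, abs_neg] at e2
    have e3 := abs_le.mp e1
    have e4 := abs_le.mp e2
    linarith
  have ht : 0 ≤ 2 * (M + 1) * b := by positivity
  have key := interrupt_cover hP h0 h1 hd hg ht hz hpos (fun z x hx => (hh z x hx).ge) hle hq hcov
    B hB
  refine key.mono ?_
  have hbW : b ≤ Wt G ε C / (1 - ε) := by
    rw [hbdef, ← hθ2, pow_two, ← div_div]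
    exact div_le_div_of_nonneg_right hW hθ0.le
  have e1 : harm Y.card ≤ harm (Fintype.card V) := harm_mono (Finset.card_le_univ Y)
  have e2 := harm_nonneg Y.card
  have e3 : 2 * (M + 1) * b ≤ 2 * (M + 1) / (1 - ε) * Wt G ε C := by
    have : 2 * ((M : ℝ) + 1) / (1 - ε) * Wt G ε C = 2 * (M + 1) * (Wt G ε C / (1 - ε)) := by ring
    rw [this]
    exact mul_le_mul_of_nonneg_left hbW (by positivity)
  have e4 : 2 * (M + 1) * b * (2 + harm Y.card)
      ≤ 2 * (M + 1) / (1 - ε) * Wt G ε C * (2 + harm (Fintype.card V)) :=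
    mul_le_mul e3 (by linarith) (by linarith) (le_trans ht e3)
  linarith

end Pool.MP_10effd_pr
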