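import Pool.Agent.MP_10effd_pr.Val

set_option autoImplicit false
set_option linter.unusedSectionVars false

namespace Pool.MP_10effd_pr

open Finset

variable {V : Type} [Fintype V] [DecidableEq V] {G : SimpleGraph V} [DecidableRel G.Adj] {ε : ℝ}

/-- Infinite-horizon value. -/
noncomputable def valInf (G : SimpleGraph V) [DecidableRel G.Adj] (ε : ℝ) (x : V)
    (S : Finset V) : ℝ := ⨆ m : ℕ, val G ε m x S

theorem val_bdd (h0 : 0 < ε) (h1 : ε < 1) (hd : ∀ x, 0 < G.degree x) {B : ℝ}
    (hB : ∀ (m : ℕ) (v : V), val G ε m v {v} ≤ B) (m : ℕ) (x : V) (S : Finset V) :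
    val G ε m x S ≤ 1 + B := by
  have hB0 : 0 ≤ B := le_trans (val_nonneg h0 h1 hd 0 x {x}) (hB 0 x)
  have key : ∀ (m : ℕ) (y : V), val G ε m y (insert y S) ≤ B := fun m y =>
    (val_anti h0 h1 hd m y {y} (insert y S) (by simp)).trans (hB m y)
  cases m with
  | zero => rw [val]; linarith
  | succ m =>
    rw [val]
    split_ifs with h
    · linarith
    · have hdeg : (0 : ℝ) < G.degree x := by exact_mod_cast hd x
      have e1 : (∑ y ∈ G.neighborFinset x, val G ε m y (insert y S)) / (G.degree x : ℝ) ≤ B := by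
        rw [div_le_iff₀ hdeg, mul_comm, ← nsmul_eq_mul, ← SimpleGraph.card_neighborFinset_eq_degree]
        exact Finset.sum_le_card_nsmul _ _ _ fun y _ => key m y
      obtain ⟨y, hy, hy'⟩ := exists_inf (hd x) fun y => val G ε m y (insert y S)
      have e2 : (⨅ y : {y // G.Adj x y}, val G ε m y.1 (insert y.1 S)) ≤ B := by
        rw [← hy']; exact key m y
      have h5 : 0 ≤ 1 - ε := by linarith
      have := mul_le_mul_of_nonneg_left e1 h5
      have := mul_le_mul_of_nonneg_left e2 h0.le
      linarith

theorem bddAbove (h0 : 0 < ε) (h1 : ε < 1) (hd : ∀ x, 0 < G.degree x) {B : ℝ}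
    (hB : ∀ (m : ℕ) (v : V), val G ε m v {v} ≤ B) (x : V) (S : Finset V) :
    BddAbove (Set.range fun m => val G ε m x S) :=
  ⟨1 + B, by rintro _ ⟨m, rfl⟩; exact val_bdd h0 h1 hd hB m x S⟩

theorem valInf_univ (x : V) : valInf G ε x Finset.univ = 0 := by
  simp [valInf, val_univ]

theorem valInf_nonneg (h0 : 0 < ε) (h1 : ε < 1) (hd : ∀ x, 0 < G.degree x) (x : V)
    (S : Finset V) : 0 ≤ valInf G ε x S :=
  Real.iSup_nonneg fun m => val_nonneg h0 h1 hd m x S

/-- The optimality inequality in infinite horizon. -/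
theorem valInf_step (h0 : 0 < ε) (h1 : ε < 1) (hd : ∀ x, 0 < G.degree x) {B : ℝ}
    (hB : ∀ (m : ℕ) (v : V), val G ε m v {v} ≤ B) (x : V) (S : Finset V)
    (hS : S ≠ Finset.univ) :
    1 + (1 - ε) * ((∑ y ∈ G.neighborFinset x, valInf G ε y (insert y S)) / (G.degree x : ℝ))
      + ε * (⨅ y : {y // G.Adj x y}, valInf G ε y.1 (insert y.1 S)) ≤ valInf G ε x S := by
  apply le_of_forall_pos_le_add
  intro δ hδ
  have hex : ∀ y : V, ∃ m, valInf G ε y (insert y S) - δ < val G ε m y (insert y S) := fun y =>
    exists_lt_of_lt_ciSup (by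
      have : (⨆ m : ℕ, val G ε m y (insert y S)) = valInf G ε y (insert y S) := rfl
      rw [this]; linarith)
  choose mm hmm using hex
  set m := Finset.univ.sup mm with hm
  have hm' : ∀ y, valInf G ε y (insert y S) ≤ val G ε m y (insert y S) + δ := by
    intro y
    have := val_mono h0 h1 hd y (insert y S) (Finset.le_sup (f := mm) (Finset.mem_univ y))
    have := hmm y
    simp only at *
    linarith
  have hup : val G ε (m + 1) x S ≤ valInf G ε x S :=
    le_ciSup (bddAbove h0 h1 hd hB x S) (m + 1)
  rw [val, if_neg hS] at hup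
  have hdeg : (0 : ℝ) < G.degree x := by exact_mod_cast hd x
  have e1 : (∑ y ∈ G.neighborFinset x, valInf G ε y (insert y S)) / (G.degree x : ℝ)
      ≤ (∑ y ∈ G.neighborFinset x, val G ε m y (insert y S)) / (G.degree x : ℝ) + δ := by
    rw [div_add' _ _ _ hdeg.ne']
    apply div_le_div_of_nonneg_right _ hdeg.le
    have : (∑ y ∈ G.neighborFinset x, valInf G ε y (insert y S))
        ≤ ∑ y ∈ G.neighborFinset x, (val G ε m y (insert y S) + δ) :=
      Finset.sum_le_sum fun y _ => hm' y
    rw [Finset.sum_add_distrib, Finset.sum_const, SimpleGraph.card_neighborFinset_eq_degree,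
      nsmul_eq_mul] at this
    linarith
  have e2 : (⨅ y : {y // G.Adj x y}, valInf G ε y.1 (insert y.1 S))
      ≤ (⨅ y : {y // G.Adj x y}, val G ε m y.1 (insert y.1 S)) + δ := by
    obtain ⟨y, hy, hy'⟩ := exists_inf (hd x) fun y => val G ε m y (insert y S)
    rw [← hy']
    exact (inf_le hy fun y => valInf G ε y (insert y S)).trans (hm' y)
  have h5 : 0 ≤ 1 - ε := by linarith
  have f1 := mul_le_mul_of_nonneg_left e1 h5
  have f2 := mul_le_mul_of_nonneg_left e2 h0.le
  nlinarith

/-- One step transition weight of the controlled walk. -/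
noncomputable def K (G : SimpleGraph V) [DecidableRel G.Adj] (ε : ℝ) (f : V → Finset V → V)
    (r q : V × Finset V) : ENNReal :=
  if G.Adj r.1 q.1 ∧ q.2 = insert q.1 r.2 then
    ENNReal.ofReal ((1 - ε) / (G.degree r.1 : ℝ) + (if q.1 = f r.1 r.2 then ε else 0))
  else 0

/-- Law of the controlled walk (current vertex, visited set). -/
noncomputable def law (G : SimpleGraph V) [DecidableRel G.Adj] (ε : ℝ) (f : V → Finset V → V)
    (v₀ : V) (t : ℕ) : V × Finset V → ENNReal :=
  Nat.rec (motive := fun _ => V × Finset V → ENNReal)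
    (fun q : V × Finset V => if q = (v₀, ({v₀} : Finset V)) then (1 : ENNReal) else 0)
    (fun (_ : ℕ) (μ : V × Finset V → ENNReal) (q : V × Finset V) =>
      ∑ r : V × Finset V, μ r *
        (if G.Adj r.1 q.1 ∧ q.2 = insert q.1 r.2 then
          ENNReal.ofReal ((1 - ε) / (G.degree r.1 : ℝ) +
            (if q.1 = f r.1 r.2 then ε else 0))
        else 0))
    t

theorem law_zero (f : V → Finset V → V) (v₀ : V) (q : V × Finset V) :
    law G ε f v₀ 0 q = if q = (v₀, ({v₀} : Finset V)) then (1 : ENNReal) else 0 := rfl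

theorem law_succ (f : V → Finset V → V) (v₀ : V) (t : ℕ) (q : V × Finset V) :
    law G ε f v₀ (t + 1) q = ∑ r : V × Finset V, law G ε f v₀ t r * K G ε f r q := rfl

theorem K_sum (f : V → Finset V → V) (F : V × Finset V → ENNReal) (r : V × Finset V) :
    ∑ q, K G ε f r q * F q
      = ∑ y ∈ G.neighborFinset r.1,
        ENNReal.ofReal ((1 - ε) / (G.degree r.1 : ℝ) + (if y = f r.1 r.2 then ε else 0))
          * F (y, insert y r.2) := by
  rw [Fintype.sum_prod_type]
  rw [← Finset.sum_subset (Finset.subset_univ (G.neighborFinset r.1))]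
  · apply Finset.sum_congr rfl
    intro y hy
    rw [SimpleGraph.mem_neighborFinset] at hy
    rw [Finset.sum_eq_single (insert y r.2)]
    · unfold K
      rw [if_pos (⟨hy, rfl⟩ : G.Adj r.1 y ∧ insert y r.2 = insert y r.2)]
    · intro T _ hT
      simp only [K]
      rw [if_neg (fun h => hT h.2), zero_mul]
    · intro h; exact absurd (Finset.mem_univ _) h
  · intro y _ hy
    rw [SimpleGraph.mem_neighborFinset] at hy
    apply Finset.sum_eq_zero
    intro T _
    simp only [K]
    rw [if_neg (fun h => hy h.1), zero_mul]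

theorem exists_policy (h0 : 0 < ε) (h1 : ε < 1) (hd : ∀ x, 0 < G.degree x) {B : ℝ}
    (hB : ∀ (m : ℕ) (v : V), val G ε m v {v} ≤ B) (v₀ : V) :
    ∃ f : V → Finset V → V, (∀ (u : V) (S : Finset V), G.Adj u (f u S)) ∧
      (∑' t : ℕ, ∑ p : V × Finset V, (if p.2 = Finset.univ then (0 : ENNReal) else
        law G ε f v₀ t p)) ≤ ENNReal.ofReal B := by
  have hex : ∀ (u : V) (S : Finset V), ∃ y, G.Adj u y ∧
      valInf G ε y (insert y S) = ⨅ y : {y // G.Adj u y}, valInf G ε y.1 (insert y.1 S) :=
    fun u S => exists_inf (hd u) fun y => valInf G ε y (insert y S)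
  choose f hf1 hf2 using hex
  refine ⟨f, hf1, ?_⟩
  set W : V × Finset V → ENNReal := fun p => ENNReal.ofReal (valInf G ε p.1 p.2) with hW
  have step : ∀ r : V × Finset V,
      (if r.2 = Finset.univ then (0 : ENNReal) else 1) + ∑ q, K G ε f r q * W q ≤ W r := by
    intro r
    rw [K_sum]
    by_cases hr : r.2 = Finset.univ
    · rw [if_pos hr, zero_add]
      have : ∀ y ∈ G.neighborFinset r.1,
          ENNReal.ofReal ((1 - ε) / (G.degree r.1 : ℝ) + (if y = f r.1 r.2 then ε else 0))
            * W (y, insert y r.2) = 0 := by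
        intro y _
        have : W (y, insert y r.2) = 0 := by
          simp only [hW, hr]
          have : insert y (Finset.univ : Finset V) = Finset.univ := by simp
          rw [this, valInf_univ, ENNReal.ofReal_zero]
        rw [this, mul_zero]
      rw [Finset.sum_eq_zero this]
      exact zero_le
    · rw [if_neg hr]
      have hstep := valInf_step h0 h1 hd hB r.1 r.2 hr
      rw [← hf2 r.1 r.2] at hstep
      have hcoef : ∀ y, 0 ≤ (1 - ε) / (G.degree r.1 : ℝ) + (if y = f r.1 r.2 then ε else 0) := by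
        intro y
        have : 0 ≤ 1 - ε := by linarith
        have : 0 ≤ (1 - ε) / (G.degree r.1 : ℝ) := by positivity
        split_ifs <;> linarith
      have e1 : ∑ y ∈ G.neighborFinset r.1,
          ENNReal.ofReal ((1 - ε) / (G.degree r.1 : ℝ) + (if y = f r.1 r.2 then ε else 0))
            * W (y, insert y r.2)
          = ENNReal.ofReal (∑ y ∈ G.neighborFinset r.1,
            ((1 - ε) / (G.degree r.1 : ℝ) + (if y = f r.1 r.2 then ε else 0))
              * valInf G ε y (insert y r.2)) := by
        rw [ENNReal.ofReal_sum_of_nonneg fun y _ =>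
          mul_nonneg (hcoef y) (valInf_nonneg h0 h1 hd _ _)]
        apply Finset.sum_congr rfl
        intro y _
        rw [ENNReal.ofReal_mul (hcoef y)]
      have e2 : ∑ y ∈ G.neighborFinset r.1,
            ((1 - ε) / (G.degree r.1 : ℝ) + (if y = f r.1 r.2 then ε else 0))
              * valInf G ε y (insert y r.2)
          = (1 - ε) * ((∑ y ∈ G.neighborFinset r.1, valInf G ε y (insert y r.2))
            / (G.degree r.1 : ℝ)) + ε * valInf G ε (f r.1 r.2) (insert (f r.1 r.2) r.2) := by
        simp only [add_mul, Finset.sum_add_distrib, ite_mul, zero_mul, ← Finset.mul_sum]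
        rw [Finset.sum_ite_eq' (G.neighborFinset r.1) (f r.1 r.2)]
        rw [if_pos ((SimpleGraph.mem_neighborFinset _ _ _).mpr (hf1 r.1 r.2))]
        ring
      rw [e1, e2, ← ENNReal.ofReal_one, ← ENNReal.ofReal_add zero_le_one]
      · apply ENNReal.ofReal_le_ofReal
        linarith
      · have a1 : 0 ≤ ∑ y ∈ G.neighborFinset r.1, valInf G ε y (insert y r.2) :=
          Finset.sum_nonneg fun y _ => valInf_nonneg h0 h1 hd _ _
        have a2 := valInf_nonneg h0 h1 hd (f r.1 r.2) (insert (f r.1 r.2) r.2)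
        have a3 : 0 ≤ 1 - ε := by linarith
        positivity
  have main : ∀ T : ℕ,
      (∑ t ∈ Finset.range T, ∑ p : V × Finset V, (if p.2 = Finset.univ then (0 : ENNReal) else
        law G ε f v₀ t p)) + ∑ p, law G ε f v₀ T p * W p ≤ W (v₀, {v₀}) := by
    intro T
    induction T with
    | zero =>
      simp [law_zero]
    | succ T ih =>
      refine le_trans ?_ ih
      rw [Finset.sum_range_succ, add_assoc]
      gcongr
      have e1 : ∑ q, law G ε f v₀ (T + 1) q * W q
          = ∑ r, law G ε f v₀ T r * ∑ q, K G ε f r q * W q := by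
        simp only [law_succ, Finset.sum_mul, Finset.mul_sum]
        rw [Finset.sum_comm]
        apply Finset.sum_congr rfl
        intro r _
        apply Finset.sum_congr rfl
        intro q _
        ring
      rw [e1, ← Finset.sum_add_distrib]
      apply Finset.sum_le_sum
      intro r _
      have := mul_le_mul_right (step r) (law G ε f v₀ T r)
      rw [mul_add] at this
      refine le_trans (le_of_eq ?_) this
      congr 1
      split_ifs <;> simp
  have hle : W (v₀, {v₀}) ≤ ENNReal.ofReal B :=
    ENNReal.ofReal_le_ofReal (ciSup_le fun m => hB m v₀)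
  refine le_trans ?_ hle
  apply ENNReal.tsum_le_of_sum_range_le
  intro T
  exact le_trans le_self_add (main T)

end Pool.MP_10effd_pr
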