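import Pool.Agent.MP_10effd_pr.Mpx
import Pool.Agent.MP_10effd_pr.Policy

set_option autoImplicit false
set_option linter.unusedSectionVars false

namespace Pool.MP_10effd_pr

open Finset

theorem harm_le (n : ℕ) : harm n ≤ 1 + Real.log n := by
  have h := harmonic_le_one_add_log n
  have e : ((harmonic n : ℚ) : ℝ) = harm n := by
    unfold harmonic harm
    push_cast
    apply Finset.sum_congr rfl
    intro i _
    rw [one_div]
  rw [← e]
  exact h

/-- The constant in the main bound. -/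
noncomputable def bigC (ε : ℝ) : ℝ :=
  let q : ℝ := Real.sqrt (Real.sqrt (1 - ε))
  4 / (1 - ε) * (2 / (q * (1 - (1 - ε) / q ^ 2))) * (1 / Real.log (1 / q) + 2 / Real.log 2)
    * (3 / Real.log 2 + 1)

theorem q_facts {ε : ℝ} (h0 : 0 < ε) (h1 : ε < 1) :
    0 < Real.sqrt (Real.sqrt (1 - ε)) ∧ Real.sqrt (Real.sqrt (1 - ε)) < 1 ∧
      1 - ε < Real.sqrt (Real.sqrt (1 - ε)) ^ 2 := by
  have a0 : 0 < 1 - ε := by linarith
  have s0 : 0 < Real.sqrt (1 - ε) := Real.sqrt_pos.mpr a0
  have s1 : Real.sqrt (1 - ε) ^ 2 = 1 - ε := Real.sq_sqrt a0.le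
  have s2 : Real.sqrt (1 - ε) < 1 := by nlinarith
  have t0 : 0 < Real.sqrt (Real.sqrt (1 - ε)) := Real.sqrt_pos.mpr s0
  have t1 : Real.sqrt (Real.sqrt (1 - ε)) ^ 2 = Real.sqrt (1 - ε) := Real.sq_sqrt s0.le
  refine ⟨t0, by nlinarith, ?_⟩
  rw [t1]
  nlinarith

theorem bigC_pos {ε : ℝ} (h0 : 0 < ε) (h1 : ε < 1) : 0 < bigC ε := by
  obtain ⟨q0, q1, q2⟩ := q_facts h0 h1
  unfold bigC
  set q := Real.sqrt (Real.sqrt (1 - ε)) with hq
  have a0 : 0 < 1 - ε := by linarith
  have b0 : 0 < 1 - (1 - ε) / q ^ 2 := by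
    rw [sub_pos, div_lt_one (by positivity)]; exact q2
  have l0 : 0 < Real.log (1 / q) := Real.log_pos (by rw [lt_div_iff₀ q0]; linarith)
  have l2 : 0 < Real.log 2 := Real.log_pos (by norm_num)
  positivity

theorem main_bound {ε : ℝ} (h0 : 0 < ε) (h1 : ε < 1) {V : Type} [Fintype V] [DecidableEq V]
    (G : SimpleGraph V) [DecidableRel G.Adj] (hn : 2 ≤ Fintype.card V) (hG : G.Connected)
    (hd : ∀ x, 0 < G.degree x) (m : ℕ) (v : V) :
    val G ε m v {v} ≤ bigC ε * (G.edgeFinset.card : ℝ)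
      * (Real.log (Fintype.card V : ℝ)) ^ 2 := by
  obtain ⟨q0, q1, q2⟩ := q_facts h0 h1
  set q := Real.sqrt (Real.sqrt (1 - ε)) with hq
  set n : ℝ := (Fintype.card V : ℝ) with hnn
  have hn2 : (2 : ℝ) ≤ n := by rw [hnn]; exact_mod_cast hn
  have a0 : 0 < 1 - ε := by linarith
  have b0 : 0 < 1 - (1 - ε) / q ^ 2 := by
    rw [sub_pos, div_lt_one (by positivity)]; exact q2
  have l0 : 0 < Real.log (1 / q) := Real.log_pos (by rw [lt_div_iff₀ q0]; linarith)
  have l2 : 0 < Real.log 2 := Real.log_pos (by norm_num)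
  have ln : Real.log 2 ≤ Real.log n := Real.log_le_log (by norm_num) hn2
  have ln0 : 0 < Real.log n := by linarith
  set M : ℕ := ⌈Real.log n / Real.log (1 / q)⌉₊ with hM
  have hM1 : Real.log n / Real.log (1 / q) ≤ M := Nat.le_ceil _
  have hM2 : (M : ℝ) < Real.log n / Real.log (1 / q) + 1 := Nat.ceil_lt_add_one (by positivity)
  have hMn : n * q ^ M ≤ 1 := by
    have h3 : Real.log n ≤ M * Real.log (1 / q) := by rwa [div_le_iff₀ l0] at hM1
    rw [← Real.log_pow] at h3
    have h4 := (Real.log_le_log_iff (by linarith) (by positivity)).mp h3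
    have h5 : (1 / q) ^ M * q ^ M = 1 := by
      rw [← mul_pow, one_div, inv_mul_cancel₀ q0.ne', one_pow]
    calc n * q ^ M ≤ (1 / q) ^ M * q ^ M := mul_le_mul_of_nonneg_right h4 (by positivity)
      _ = 1 := h5
  obtain ⟨ctr, hc, hW⟩ := exists_clustering (ε := ε) hG q0 q1 M hMn h1 q2
  refine (val_le_of_clustering h0 h1 hG hd hc m v).trans ?_
  have hdeg : ∑ x, (G.degree x : ℝ) = 2 * (G.edgeFinset.card : ℝ) := by
    have := G.sum_degrees_eq_twice_card_edges
    exact_mod_cast this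
  rw [hdeg] at hW
  set Kc := 2 / (q * (1 - (1 - ε) / q ^ 2)) with hKc
  have hKc0 : 0 < Kc := by positivity
  have e1 : ∑ u ∈ Finset.univ.filter (fun u => ctr u = u), cost G ε ctr M u
      = 2 * (M + 1) / (1 - ε) * (2 + harm (Fintype.card V))
        * ∑ u ∈ Finset.univ.filter (fun u => ctr u = u), Wt G ε (cl ctr u) := by
    rw [Finset.mul_sum]
    apply Finset.sum_congr rfl
    intro u _
    unfold cost
    ring
  rw [e1]
  have hE : (0 : ℝ) ≤ (G.edgeFinset.card : ℝ) := Nat.cast_nonneg _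
  have e2 : (M : ℝ) + 1 ≤ (1 / Real.log (1 / q) + 2 / Real.log 2) * Real.log n := by
    have : (1 / Real.log (1 / q) + 2 / Real.log 2) * Real.log n
        = Real.log n / Real.log (1 / q) + 2 * (Real.log n / Real.log 2) := by ring
    rw [this]
    have : 1 ≤ Real.log n / Real.log 2 := by rwa [one_le_div l2]
    linarith
  have e3 : 2 + harm (Fintype.card V) ≤ (3 / Real.log 2 + 1) * Real.log n := by
    have h5 := harm_le (Fintype.card V)
    have : (3 / Real.log 2 + 1) * Real.log n = 3 * (Real.log n / Real.log 2) + Real.log n := by ring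
    rw [this]
    have : 1 ≤ Real.log n / Real.log 2 := by rwa [one_le_div l2]
    rw [← hnn] at h5
    linarith
  have hh := harm_nonneg (Fintype.card V)
  have e4 : 2 * (M + 1) / (1 - ε) * (2 + harm (Fintype.card V))
      ≤ 2 / (1 - ε) * (((1 / Real.log (1 / q) + 2 / Real.log 2) * Real.log n)
        * ((3 / Real.log 2 + 1) * Real.log n)) := by
    have : 2 * ((M : ℝ) + 1) / (1 - ε) * (2 + harm (Fintype.card V))
        = 2 / (1 - ε) * (((M : ℝ) + 1) * (2 + harm (Fintype.card V))) := by ring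
    rw [this]
    apply mul_le_mul_of_nonneg_left _ (by positivity)
    exact mul_le_mul e2 e3 (by linarith) (by positivity)
  have hWn : 0 ≤ ∑ u ∈ Finset.univ.filter (fun u => ctr u = u), Wt G ε (cl ctr u) :=
    Finset.sum_nonneg fun u _ => Wt_nonneg h1 _
  refine (mul_le_mul e4 hW hWn (by positivity)).trans (le_of_eq ?_)
  unfold bigC
  rw [← hq]
  simp only [← hKc]
  ring

end Pool.MP_10effd_pr
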