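import Pool.Agent.MP_10effd_pr.Val

set_option autoImplicit false
set_option linter.unusedSectionVars false

namespace Pool.MP_10effd_pr

open Finset

variable {V : Type} [Fintype V] [DecidableEq V] {G : SimpleGraph V} [DecidableRel G.Adj] {ε : ℝ}

/-- Harmonic numbers, as reals. -/
noncomputable def harm (n : ℕ) : ℝ := ∑ i ∈ Finset.range n, (1 : ℝ) / (i + 1)

theorem harm_succ (n : ℕ) : harm (n + 1) = harm n + 1 / (n + 1) := by
  simp [harm, Finset.sum_range_succ]

theorem harm_nonneg (n : ℕ) : 0 ≤ harm n :=
  Finset.sum_nonneg fun _ _ => by positivity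

theorem harm_mono {m n : ℕ} (h : m ≤ n) : harm m ≤ harm n :=
  Finset.sum_le_sum_of_subset_of_nonneg (Finset.range_mono h) fun _ _ _ => by positivity

/-- The supersolution for covering a family of targets (Matthews' method), with interruptions:
whenever a fresh target `z` is reached, `A z` is visited and the walk is back at `z` at cost
`q z`. -/
theorem interrupt_aux {P : V → V → ℝ} (hP : Ker G ε P) (h0 : 0 < ε) (h1 : ε < 1)
    (hd : ∀ x, 0 < G.degree x) {Y : Finset V} {g : V} {t : ℝ} {h : V → V → ℝ}
    (ht : 0 ≤ t)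
    (hz : ∀ z, h z z = 0) (hpos : ∀ z x, 0 ≤ h z x)
    (hsup : ∀ z x, x ≠ z → 1 + ∑ y, P x y * h z y ≤ h z x)
    (hle : ∀ z ∈ insert g Y, ∀ y ∈ insert g Y, h z y ≤ t)
    {A : V → Finset V} {q : V → ℝ} (hq : ∀ z, 0 ≤ q z)
    (hcov : ∀ z ∈ Y, Cov G ε z (A z) (q z)) (B : Finset V) (M : ℕ) (S₀ : Finset V)
    (hB : ∀ S, S₀ ⊆ S → (∀ z ∈ Y, A z ⊆ S) → B ⊆ S) :
    ∀ m ≤ M, ∀ (Z : Finset V) (x : V) (S : Finset V), Z ⊆ Y → x ∉ Z → x ∈ S → S₀ ⊆ S →
      (∀ z ∈ Y, z ∉ Z → A z ⊆ S) →
      val G ε m x S ≤ (if Z = ∅ then h g x else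
          t + t * harm Z.card + (∑ z ∈ Z, h z x) / (Z.card : ℝ))
        + (∑ z ∈ Z, q z) + val G ε M g (insert g B) := by
  intro m
  induction m with
  | zero =>
    intro _ Z x S _ _ _ _ _
    rw [val]
    have := val_nonneg h0 h1 hd M g (insert g B)
    have : 0 ≤ ∑ z ∈ Z, q z := Finset.sum_nonneg fun z _ => hq z
    have : 0 ≤ ∑ z ∈ Z, h z x := Finset.sum_nonneg fun z _ => hpos z x
    have := harm_nonneg Z.card
    split_ifs
    · have := hpos g x
      positivity
    · positivity
  | succ m ih =>
    intro hmM Z x S hZY hxZ hxS hS0 hA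
    by_cases hZ : Z = ∅
    · subst hZ
      simp only [if_true, Finset.sum_empty, add_zero]
      refine (val_hit hP h0 h1 hd (hz g) (hpos g) (hsup g) (m + 1) x S hxS).trans ?_
      have e1 := val_mono h0 h1 hd g (insert g S) hmM
      have hBS : B ⊆ S := hB S hS0 fun z hz => hA z hz (Finset.notMem_empty z)
      have e2 := val_anti h0 h1 hd M g (insert g B) (insert g S) (Finset.insert_subset_insert g hBS)
      simp only at e1
      linarith
    · rw [if_neg hZ]
      set R := val G ε M g (insert g B) with hR
      have hk : 0 < Z.card := Finset.card_pos.mpr (Finset.nonempty_iff_ne_empty.mpr hZ)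
      have hk' : (0 : ℝ) < Z.card := by exact_mod_cast hk
      -- the formula at `y`, for `y` in `Z` or not
      have main : ∀ y, val G ε m y (insert y S) ≤
          (t + t * harm Z.card + (∑ z ∈ Z, h z y) / (Z.card : ℝ)) + (∑ z ∈ Z, q z) + R := by
        intro y
        by_cases hy : y ∈ Z
        · have hyY := hZY hy
          refine (hcov y hyY m (insert y S) (Finset.mem_insert_self _ _)).trans ?_
          have hsub : Z.erase y ⊆ Y := (Finset.erase_subset _ _).trans hZY
          have := ih (by omega) (Z.erase y) y (insert y S ∪ A y) hsub (Finset.notMem_erase _ _)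
            (Finset.mem_union_left _ (Finset.mem_insert_self _ _))
            (hS0.trans ((Finset.subset_insert _ _).trans Finset.subset_union_left))
            (by
              intro z hz hzZ
              by_cases hzy : z = y
              · subst hzy; exact Finset.subset_union_right
              · have : z ∉ Z := fun h' => hzZ (Finset.mem_erase.mpr ⟨hzy, h'⟩)
                exact (hA z hz this).trans
                  ((Finset.subset_insert _ _).trans Finset.subset_union_left))
          have hqs : q y + ∑ z ∈ Z.erase y, q z = ∑ z ∈ Z, q z := Finset.add_sum_erase Z q hy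
          have hhs : h y y + ∑ z ∈ Z.erase y, h z y = ∑ z ∈ Z, h z y :=
            Finset.add_sum_erase Z (fun z => h z y) hy
          rw [hz y, zero_add] at hhs
          have hcard : (Z.erase y).card + 1 = Z.card := Finset.card_erase_add_one hy
          set k := (Z.erase y).card with hkdef
          have hharm : harm Z.card = harm k + 1 / ((k : ℝ) + 1) := by rw [← hcard, harm_succ]
          have hkc : (Z.card : ℝ) = (k : ℝ) + 1 := by rw [← hcard]; push_cast; ring
          by_cases hZe : Z.erase y = ∅
          · rw [if_pos hZe] at this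
            have hgy : h g y ≤ t := hle g (Finset.mem_insert_self _ _) y (Finset.mem_insert_of_mem hyY)
            have e1 : 0 ≤ t * harm Z.card := mul_nonneg ht (harm_nonneg _)
            have e2 : 0 ≤ (∑ z ∈ Z, h z y) / (Z.card : ℝ) :=
              div_nonneg (Finset.sum_nonneg fun z _ => hpos z y) hk'.le
            linarith
          · rw [if_neg hZe] at this
            have hk0 : 0 < k := Finset.card_pos.mpr (Finset.nonempty_iff_ne_empty.mpr hZe)
            have hk0' : (0 : ℝ) < k := by exact_mod_cast hk0
            rw [hhs] at this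
            set sh := ∑ z ∈ Z, h z y with hsh
            have hshle : sh ≤ k * t := by
              rw [← hhs, hkdef, ← nsmul_eq_mul]
              apply Finset.sum_le_card_nsmul
              intro z hz'
              exact hle z (Finset.mem_insert_of_mem (hsub hz')) y (Finset.mem_insert_of_mem hyY)
            have e3 : sh / k ≤ t * (1 / ((k : ℝ) + 1)) + sh / ((k : ℝ) + 1) := by
              have : t * (1 / ((k : ℝ) + 1)) + sh / ((k : ℝ) + 1) = (t + sh) / ((k : ℝ) + 1) := by
                ring
              rw [this, div_le_div_iff₀ hk0' (by positivity)]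
              nlinarith
            rw [hharm, hkc]
            have e4 : t * (harm k + 1 / ((k : ℝ) + 1)) = t * harm k + t * (1 / ((k : ℝ) + 1)) := by
              ring
            linarith
        · have := ih (by omega) Z y (insert y S) hZY hy (Finset.mem_insert_self _ _)
            (hS0.trans (Finset.subset_insert _ _))
            (fun z hz hzZ => (hA z hz hzZ).trans (Finset.subset_insert _ _))
          rw [if_neg hZ] at this
          exact this
      refine (val_le_ker hP h0 h1 hd m x S).trans ?_
      have e : ∑ y, P x y * val G ε m y (insert y S)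
          ≤ ∑ y, P x y * ((t + t * harm Z.card + (∑ z ∈ Z, h z y) / (Z.card : ℝ))
            + (∑ z ∈ Z, q z) + R) :=
        Finset.sum_le_sum fun y _ => mul_le_mul_of_nonneg_left (main y) (hP.nonneg h1 x y)
      have e2 : ∑ y, P x y * ((t + t * harm Z.card + (∑ z ∈ Z, h z y) / (Z.card : ℝ))
            + (∑ z ∈ Z, q z) + R)
          = (t + t * harm Z.card + (∑ z ∈ Z, q z) + R)
            + (∑ z ∈ Z, ∑ y, P x y * h z y) / (Z.card : ℝ) := by
        rw [Finset.sum_comm, Finset.sum_div]
        have : ∀ y, P x y * ((t + t * harm Z.card + (∑ z ∈ Z, h z y) / (Z.card : ℝ))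
            + (∑ z ∈ Z, q z) + R)
            = P x y * (t + t * harm Z.card + (∑ z ∈ Z, q z) + R)
              + (∑ z ∈ Z, P x y * h z y) / (Z.card : ℝ) := by
          intro y
          rw [← Finset.mul_sum]
          ring
        simp only [this, Finset.sum_add_distrib, ← Finset.sum_mul, hP.sum_one, one_mul]
      have e3 : (∑ z ∈ Z, ∑ y, P x y * h z y) ≤ (∑ z ∈ Z, h z x) - Z.card := by
        have : (∑ z ∈ Z, ∑ y, P x y * h z y) ≤ ∑ z ∈ Z, (h z x - 1) := by
          apply Finset.sum_le_sum
          intro z hzZ
          have hne : x ≠ z := fun hh => hxZ (hh ▸ hzZ)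
          have := hsup z x hne
          linarith
        refine this.trans ?_
        simp [Finset.sum_sub_distrib]
      have e4 : (∑ z ∈ Z, ∑ y, P x y * h z y) / (Z.card : ℝ)
          ≤ (∑ z ∈ Z, h z x) / (Z.card : ℝ) - 1 := by
        have := div_le_div_of_nonneg_right e3 hk'.le
        rwa [sub_div, div_self hk'.ne'] at this
      linarith

/-- Covering by a random tour through the targets `Y`, with excursions at fresh targets. -/
theorem interrupt_cover {P : V → V → ℝ} (hP : Ker G ε P) (h0 : 0 < ε) (h1 : ε < 1)
    (hd : ∀ x, 0 < G.degree x) {Y : Finset V} {g : V} (hg : g ∈ Y) {t : ℝ} {h : V → V → ℝ}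
    (ht : 0 ≤ t)
    (hz : ∀ z, h z z = 0) (hpos : ∀ z x, 0 ≤ h z x)
    (hsup : ∀ z x, x ≠ z → 1 + ∑ y, P x y * h z y ≤ h z x)
    (hle : ∀ z ∈ Y, ∀ y ∈ Y, h z y ≤ t)
    {A : V → Finset V} {q : V → ℝ} (hq : ∀ z, 0 ≤ q z)
    (hcov : ∀ z ∈ Y, Cov G ε z (A z) (q z)) (B : Finset V)
    (hB : ∀ b ∈ B, ∃ z ∈ Y, b ∈ A z) :
    Cov G ε g B (∑ z ∈ Y, q z + t * (2 + harm Y.card)) := by
  intro m S hgS
  have hgY : insert g Y = Y := Finset.insert_eq_of_mem hg
  have hgZ : Y.erase g ⊆ Y := Finset.erase_subset _ _
  have key := interrupt_aux hP h0 h1 hd (Y := Y) (g := g) ht hz hpos hsup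
    (by rw [hgY]; exact hle) hq hcov (S ∪ B) m S
    (by
      intro S' hS hA
      apply Finset.union_subset hS
      intro b hb
      obtain ⟨z, hzY, hbz⟩ := hB b hb
      exact hA z hzY hbz) m le_rfl (Y.erase g) g (S ∪ A g) hgZ (Finset.notMem_erase _ _)
    (Finset.mem_union_left _ hgS) Finset.subset_union_left
    (by
      intro z hz hzZ
      have : z = g := by
        by_contra hne
        exact hzZ (Finset.mem_erase.mpr ⟨hne, hz⟩)
      subst this
      exact Finset.subset_union_right)
  have h2 := hcov g hg m S hgS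
  rw [Finset.insert_eq_of_mem (Finset.mem_union_left _ hgS)] at key
  have hqs : q g + ∑ z ∈ Y.erase g, q z = ∑ z ∈ Y, q z := Finset.add_sum_erase Y q hg
  have hcard : (Y.erase g).card ≤ Y.card := Finset.card_erase_le
  have hh := harm_mono hcard
  have hbound : (if Y.erase g = ∅ then h g g else
          t + t * harm (Y.erase g).card + (∑ z ∈ Y.erase g, h z g) / ((Y.erase g).card : ℝ))
      ≤ t * (2 + harm Y.card) := by
    split_ifs with he
    · rw [hz]; have := harm_nonneg Y.card; positivity
    · have hk : 0 < (Y.erase g).card := Finset.card_pos.mpr (Finset.nonempty_iff_ne_empty.mpr he)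
      have hk' : (0 : ℝ) < (Y.erase g).card := by exact_mod_cast hk
      have : (∑ z ∈ Y.erase g, h z g) ≤ (Y.erase g).card * t := by
        rw [← nsmul_eq_mul]
        apply Finset.sum_le_card_nsmul
        intro z hz'
        exact hle z (hgZ hz') g hg
      have h3 : (∑ z ∈ Y.erase g, h z g) / ((Y.erase g).card : ℝ) ≤ t := by
        rw [div_le_iff₀ hk']; linarith
      have h4 := mul_le_mul_of_nonneg_left hh ht
      nlinarith
  linarith

end Pool.MP_10effd_pr
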