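import Pool.Agent.MP_10effd_pr.Random

set_option autoImplicit false
set_option linter.unusedSectionVars false

namespace Pool.MP_10effd_pr

open Finset

variable {V : Type} [Fintype V] [DecidableEq V] {G : SimpleGraph V} [DecidableRel G.Adj] {ε : ℝ}

/-- `u` is nearly winning at `x`, with slack `2 s`. -/
def Near (G : SimpleGraph V) (s : ℕ) (x u : V) (δ : V → ℕ) : Prop :=
  ∀ w, w ≠ u → δ w + G.dist x u ≤ δ u + 2 * s + G.dist x w

/-- `u` wins strictly at `x`. -/
def Win (G : SimpleGraph V) (x u : V) (δ : V → ℕ) : Prop :=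
  ∀ w, w ≠ u → δ w + G.dist x u < δ u + G.dist x w

open Classical in
theorem near_win {q : ℝ} (hq0 : 0 < q) (hq1 : q < 1) (M s : ℕ) (x u : V) :
    q ^ (2 * s + 1) * ∑ δ : V → Fin (M + 1), pw q M δ * (if Near G s x u (fun v => δ v) then 1 else 0)
      ≤ ∑ δ : V → Fin (M + 1), pw q M δ * (if Win G x u (fun v => δ v) then 1 else 0)
        + q ^ (M + 1) := by
  rw [resample q M u (fun δ => if Near G s x u (fun v => δ v) then (1 : ℝ) else 0),
    resample q M u (fun δ => if Win G x u (fun v => δ v) then (1 : ℝ) else 0)]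
  have e : q ^ (M + 1) = ∑ δ : V → Fin (M + 1), pw q M δ * q ^ (M + 1) := by
    rw [← Finset.sum_mul, pw_sum, one_mul]
  rw [e, ← Finset.sum_add_distrib, Finset.mul_sum]
  apply Finset.sum_le_sum
  intro δ _
  have hp := pw_nonneg (V := V) hq0 hq1 M δ
  rw [← mul_add, mul_left_comm]
  apply mul_le_mul_of_nonneg_left _ hp
  set T : ℕ := (Finset.univ.erase u).sup fun w => (δ w : ℕ) + G.dist x u - G.dist x w with hT
  have hTle : ∀ w, w ≠ u → (δ w : ℕ) + G.dist x u - G.dist x w ≤ T := fun w hw =>
    Finset.le_sup (f := fun w => (δ w : ℕ) + G.dist x u - G.dist x w)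
      (Finset.mem_erase.mpr ⟨hw, Finset.mem_univ w⟩)
  have b1 : ∑ k : Fin (M + 1), gw q M k *
      (if Near G s x u (fun v => (Function.update δ u k v : Fin (M + 1))) then (1 : ℝ) else 0)
      ≤ if T - 2 * s ≤ M then q ^ (T - 2 * s) else 0 := by
    rw [← tail q M (T - 2 * s)]
    apply Finset.sum_le_sum
    intro k _
    by_cases hN : Near G s x u (fun v => (Function.update δ u k v : Fin (M + 1)))
    · rw [if_pos hN, mul_one]
      have hk : T - 2 * s ≤ (k : ℕ) := by
        have : T ≤ (k : ℕ) + 2 * s := by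
          apply Finset.sup_le
          intro w hw
          have hwu := Finset.ne_of_mem_erase hw
          have := hN w hwu
          simp only [Function.update_self, Function.update_of_ne hwu] at this
          omega
        omega
      rw [if_pos hk]
    · rw [if_neg hN, mul_zero]
      split_ifs
      · exact gw_nonneg hq0 hq1 M _
      · exact le_rfl
  have b2 : (if T + 1 ≤ M then q ^ (T + 1) else 0) ≤ ∑ k : Fin (M + 1), gw q M k *
      (if Win G x u (fun v => (Function.update δ u k v : Fin (M + 1))) then (1 : ℝ) else 0) := by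
    rw [← tail q M (T + 1)]
    apply Finset.sum_le_sum
    intro k _
    by_cases hk : T + 1 ≤ (k : ℕ)
    · have hW : Win G x u (fun v => (Function.update δ u k v : Fin (M + 1))) := by
        intro w hwu
        have := hTle w hwu
        simp only [Function.update_self, Function.update_of_ne hwu]
        omega
      rw [if_pos hk, if_pos hW, mul_one]
    · rw [if_neg hk]
      apply mul_nonneg (gw_nonneg hq0 hq1 M _)
      split_ifs <;> norm_num
  have hqs : 0 ≤ q ^ (2 * s + 1) := by positivity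
  refine (mul_le_mul_of_nonneg_left b1 hqs).trans ?_
  refine le_trans ?_ (add_le_add b2 le_rfl)
  by_cases h1 : T - 2 * s ≤ M
  · rw [if_pos h1, ← pow_add]
    have h2 : q ^ (2 * s + 1 + (T - 2 * s)) ≤ q ^ (T + 1) :=
      pow_le_pow_of_le_one hq0.le hq1.le (by omega)
    by_cases h3 : T + 1 ≤ M
    · rw [if_pos h3]
      have : 0 ≤ q ^ (M + 1) := by positivity
      linarith
    · rw [if_neg h3, zero_add]
      refine h2.trans (pow_le_pow_of_le_one hq0.le hq1.le (by omega))
  · rw [if_neg h1, mul_zero]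
    have : 0 ≤ q ^ (M + 1) := by positivity
    have : (0 : ℝ) ≤ if T + 1 ≤ M then q ^ (T + 1) else 0 := by
      split_ifs <;> positivity
    linarith

open Classical in
theorem near_sum {q : ℝ} (hq0 : 0 < q) (hq1 : q < 1) (M s : ℕ)
    (hM : (Fintype.card V : ℝ) * q ^ M ≤ 1) (x : V) :
    q ^ (2 * s + 1) * ∑ δ : V → Fin (M + 1), pw q M δ *
      (∑ u, if Near G s x u (fun v => δ v) then (1 : ℝ) else 0) ≤ 2 := by
  have e1 : ∑ δ : V → Fin (M + 1), pw q M δ *
      (∑ u, if Near G s x u (fun v => δ v) then (1 : ℝ) else 0)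
      = ∑ u, ∑ δ : V → Fin (M + 1), pw q M δ *
      (if Near G s x u (fun v => δ v) then (1 : ℝ) else 0) := by
    simp only [Finset.mul_sum]
    rw [Finset.sum_comm]
  rw [e1, Finset.mul_sum]
  refine (Finset.sum_le_sum fun u _ => near_win (G := G) hq0 hq1 M s x u).trans ?_
  rw [Finset.sum_add_distrib, Finset.sum_comm]
  have e2 : ∑ δ : V → Fin (M + 1), ∑ u, pw q M δ *
      (if Win G x u (fun v => δ v) then (1 : ℝ) else 0) ≤ 1 := by
    refine le_trans (Finset.sum_le_sum (g := fun δ => pw q M δ) ?_) (pw_sum (V := V) q M).le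
    intro δ _
    rw [← Finset.mul_sum]
    have hp := pw_nonneg (V := V) hq0 hq1 M δ
    have : (∑ u, if Win G x u (fun v => δ v) then (1 : ℝ) else 0) ≤ 1 := by
      rw [Finset.sum_boole]
      have : (Finset.univ.filter fun u => Win G x u (fun v => δ v)).card ≤ 1 := by
        rw [Finset.card_le_one]
        intro a ha b hb
        rw [Finset.mem_filter] at ha hb
        by_contra hne
        have h1 := ha.2 b (Ne.symm hne)
        have h2 := hb.2 a hne
        omega
      exact_mod_cast this
    nlinarith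
  have e3 : ∑ _u : V, q ^ (M + 1) ≤ 1 := by
    rw [Finset.sum_const, Finset.card_univ, nsmul_eq_mul, pow_succ, ← mul_assoc]
    have : 0 ≤ (Fintype.card V : ℝ) * q ^ M := by positivity
    nlinarith
  linarith

theorem lex_aux {n a b i j : ℤ} (hn : 0 < n) (hi : 0 ≤ i) (hj : j < n)
    (h : n * a + i ≤ n * b + j) : a ≤ b := by
  by_contra hcon
  have : b + 1 ≤ a := by omega
  nlinarith

/-- The tie-breaking key. -/
noncomputable def key (G : SimpleGraph V) (δ : V → ℕ) (x u : V) : ℤ :=
  (Fintype.card V : ℤ) * ((δ u : ℤ) - G.dist x u) + (Fintype.equivFin V u : ℕ)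

theorem key_le {δ : V → ℕ} {x u w : V} (h : key G δ x w ≤ key G δ x u) :
    (δ w : ℤ) - G.dist x w ≤ (δ u : ℤ) - G.dist x u := by
  have hn : 0 < (Fintype.card V : ℤ) := by
    have : 0 < Fintype.card V := Fintype.card_pos_iff.mpr ⟨x⟩
    exact_mod_cast this
  apply lex_aux hn _ _ h
  · positivity
  · exact_mod_cast (Fintype.equivFin V u).2

theorem key_inj {δ : V → ℕ} {x u w : V} (h : key G δ x w = key G δ x u) : w = u := by
  have h1 := key_le h.le
  have h2 := key_le h.ge
  have h3 : (δ w : ℤ) - G.dist x w = (δ u : ℤ) - G.dist x u := le_antisymm h1 h2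
  unfold key at h
  rw [h3] at h
  have : ((Fintype.equivFin V w : ℕ) : ℤ) = (Fintype.equivFin V u : ℕ) := by linarith
  have : (Fintype.equivFin V w : ℕ) = (Fintype.equivFin V u : ℕ) := by exact_mod_cast this
  exact (Fintype.equivFin V).injective (Fin.ext this)

theorem exists_closer (hG : G.Connected) {x u : V} (h : x ≠ u) :
    ∃ y, G.Adj x y ∧ G.dist y u + 1 = G.dist x u := by
  obtain ⟨p, hp⟩ := hG.exists_walk_length_eq_dist x u
  cases p with
  | nil => exact absurd rfl h
  | @cons _ y _ hxy p =>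
    refine ⟨y, hxy, ?_⟩
    rw [SimpleGraph.Walk.length_cons] at hp
    have h1 := SimpleGraph.dist_le p
    have h2 : G.dist x u ≤ G.dist x y + G.dist y u := hG.dist_triangle
    have h3 : G.dist x y = 1 := SimpleGraph.dist_eq_one_iff_adj.mpr hxy
    omega

theorem exists_ctr (hG : G.Connected) (M : ℕ) (δ : V → ℕ) (hδ : ∀ v, δ v ≤ M) :
    ∃ ctr : V → V, Clustering G ctr M ∧
      ∀ x y, Near G (G.dist x y) x (ctr y) δ := by
  classical
  have := hG.nonempty
  have hex : ∀ x : V, ∃ u, ∀ w, key G δ x w ≤ key G δ x u := fun x =>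
    Finite.exists_max fun u => key G δ x u
  choose ctr hctr using hex
  refine ⟨ctr, ⟨?_, ?_⟩, ?_⟩
  · intro x hx
    obtain ⟨y, hxy, hd⟩ := exists_closer hG hx
    refine ⟨y, hxy, ?_, hd⟩
    set u := ctr x with hu
    have h1 : ∀ w, key G δ y w ≤ key G δ y u := by
      intro w
      have e1 := hctr x w
      have e2 : G.dist x w ≤ G.dist x y + G.dist y w := hG.dist_triangle
      have e3 : G.dist x y = 1 := SimpleGraph.dist_eq_one_iff_adj.mpr hxy
      rw [e3] at e2
      rw [← hu] at e1
      unfold key at e1 ⊢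
      have hn : 0 ≤ (Fintype.card V : ℤ) := by positivity
      have e4 : (G.dist x w : ℤ) ≤ 1 + G.dist y w := by exact_mod_cast e2
      have e5 : (G.dist y u : ℤ) + 1 = G.dist x u := by exact_mod_cast hd
      have e6 : (Fintype.card V : ℤ) * ((δ w : ℤ) - G.dist y w)
          ≤ (Fintype.card V : ℤ) * ((δ w : ℤ) - G.dist x w + 1) :=
        mul_le_mul_of_nonneg_left (by linarith) hn
      have e7 : (Fintype.card V : ℤ) * ((δ u : ℤ) - G.dist y u)
          = (Fintype.card V : ℤ) * ((δ u : ℤ) - G.dist x u + 1) := by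
        rw [← e5]; ring
      linarith
    exact key_inj (le_antisymm (h1 (ctr y)) (hctr y u))
  · intro x
    have h1 := key_le (hctr x x)
    rw [SimpleGraph.dist_self] at h1
    have h2 := hδ (ctr x)
    omega
  · intro x y w hw
    have h1 := key_le (hctr y w)
    have h2 : G.dist x (ctr y) ≤ G.dist x y + G.dist y (ctr y) := hG.dist_triangle
    have h3 : G.dist y w ≤ G.dist y x + G.dist x w := hG.dist_triangle
    rw [SimpleGraph.dist_comm (u := y) (v := x)] at h3
    omega

/-- Existence of a good clustering. -/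
theorem exists_clustering (hG : G.Connected) {q : ℝ} (hq0 : 0 < q) (hq1 : q < 1) (M : ℕ)
    (hM : (Fintype.card V : ℝ) * q ^ M ≤ 1) (h1 : ε < 1) (hq : 1 - ε < q ^ 2) :
    ∃ ctr : V → V, Clustering G ctr M ∧
      ∑ u ∈ Finset.univ.filter (fun u => ctr u = u), Wt G ε (cl ctr u)
        ≤ 2 / (q * (1 - (1 - ε) / q ^ 2)) * ∑ x, (G.degree x : ℝ) := by
  classical
  set r : ℝ := 1 - ε with hr
  have hr0 : 0 < r := by linarith
  set D : ℕ := (Finset.univ.sup fun x : V => Finset.univ.sup fun y : V => G.dist x y) + 1 with hD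
  have hDlt : ∀ x y : V, G.dist x y < D := by
    intro x y
    have a1 : G.dist x y ≤ Finset.univ.sup fun y : V => G.dist x y :=
      Finset.le_sup (f := fun y => G.dist x y) (Finset.mem_univ y)
    have a2 : (Finset.univ.sup fun y : V => G.dist x y)
        ≤ Finset.univ.sup fun x : V => Finset.univ.sup fun y : V => G.dist x y :=
      Finset.le_sup (f := fun x : V => Finset.univ.sup fun y : V => G.dist x y) (Finset.mem_univ x)
    omega
  set F : (V → Fin (M + 1)) → ℝ := fun δ =>
    ∑ x, (G.degree x : ℝ) * ∑ s ∈ Finset.range D, r ^ s *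
      ∑ u, (if Near G s x u (fun v => δ v) then (1 : ℝ) else 0) with hF
  set Kc : ℝ := 2 / (q * (1 - r / q ^ 2)) with hKc
  have hgeo : ∑ s ∈ Finset.range D, (r / q ^ 2) ^ s ≤ (1 - r / q ^ 2)⁻¹ := by
    have hlt : r / q ^ 2 < 1 := by rw [div_lt_one (by positivity)]; exact hq
    have h0' : 0 ≤ r / q ^ 2 := by positivity
    have := Summable.sum_le_tsum (Finset.range D) (fun i _ => pow_nonneg h0' i)
      (summable_geometric_of_lt_one h0' hlt)
    rwa [tsum_geometric_of_lt_one h0' hlt] at this
  -- the expectation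
  have hE : ∑ δ, pw q M δ * F δ ≤ Kc * ∑ x, (G.degree x : ℝ) := by
    have e1 : ∑ δ, pw q M δ * F δ = ∑ x, (G.degree x : ℝ) * ∑ s ∈ Finset.range D, r ^ s *
        ∑ δ, pw q M δ * ∑ u, (if Near G s x u (fun v => δ v) then (1 : ℝ) else 0) := by
      simp only [hF, Finset.mul_sum]
      rw [Finset.sum_comm]
      apply Finset.sum_congr rfl
      intro x _
      rw [Finset.sum_comm]
      apply Finset.sum_congr rfl
      intro s _
      apply Finset.sum_congr rfl
      intro δ _
      apply Finset.sum_congr rfl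
      intro u _
      ring
    rw [e1, Finset.mul_sum]
    apply Finset.sum_le_sum
    intro x _
    rw [mul_comm Kc]
    apply mul_le_mul_of_nonneg_left _ (Nat.cast_nonneg _)
    have e2 : ∀ s ∈ Finset.range D, r ^ s *
        ∑ δ : V → Fin (M + 1), pw q M δ *
          ∑ u, (if Near G s x u (fun v => δ v) then (1 : ℝ) else 0)
        ≤ (2 / q) * (r / q ^ 2) ^ s := by
      intro s _
      have h3 := near_sum (G := G) hq0 hq1 M s hM x
      have h4 : ∑ δ : V → Fin (M + 1), pw q M δ *
          ∑ u, (if Near G s x u (fun v => δ v) then (1 : ℝ) else 0) ≤ 2 / q ^ (2 * s + 1) := by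
        rw [le_div_iff₀ (by positivity), mul_comm]
        exact h3
      refine (mul_le_mul_of_nonneg_left h4 (by positivity)).trans (le_of_eq ?_)
      rw [div_pow, pow_succ, pow_mul]
      field_simp
    refine (Finset.sum_le_sum e2).trans ?_
    rw [← Finset.mul_sum]
    refine (mul_le_mul_of_nonneg_left hgeo (by positivity)).trans (le_of_eq ?_)
    rw [hKc, ← div_eq_mul_inv, div_div]
  -- choose a good `δ`
  have hex : ∃ δ ∈ (Finset.univ : Finset (V → Fin (M + 1))),
      pw q M δ * F δ ≤ pw q M δ * (Kc * ∑ x, (G.degree x : ℝ)) := by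
    apply Finset.exists_le_of_sum_le
    · exact ⟨fun _ => 0, Finset.mem_univ _⟩
    · rw [← Finset.sum_mul, pw_sum, one_mul]
      exact hE
  obtain ⟨δ, _, hδ⟩ := hex
  have hδ' : F δ ≤ Kc * ∑ x, (G.degree x : ℝ) :=
    le_of_mul_le_mul_left hδ (pw_pos hq0 hq1 M δ)
  obtain ⟨ctr, hc, hnear⟩ := exists_ctr hG M (fun v => (δ v : ℕ)) (fun v => by
    have := (δ v).2; omega)
  refine ⟨ctr, hc, le_trans ?_ hδ'⟩
  have e3 : ∑ u ∈ Finset.univ.filter (fun u => ctr u = u), Wt G ε (cl ctr u)
      = ∑ x, (G.degree x : ℝ) * ∑ u ∈ Finset.univ.filter (fun u => ctr u = u),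
        r ^ (dset G (cl ctr u) x) := by
    simp only [Wt, Finset.mul_sum]
    rw [Finset.sum_comm]
  rw [e3]
  apply Finset.sum_le_sum
  intro x _
  apply mul_le_mul_of_nonneg_left _ (Nat.cast_nonneg _)
  have e4 : ∑ s ∈ Finset.range D, r ^ s *
      ∑ u, (if Near G s x u (fun v => (δ v : ℕ)) then (1 : ℝ) else 0)
      = ∑ u, ∑ s ∈ Finset.range D, r ^ s *
        (if Near G s x u (fun v => (δ v : ℕ)) then (1 : ℝ) else 0) := by
    simp only [Finset.mul_sum]
    rw [Finset.sum_comm]
  rw [e4]
  have hnn : ∀ u, 0 ≤ ∑ s ∈ Finset.range D, r ^ s *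
        (if Near G s x u (fun v => (δ v : ℕ)) then (1 : ℝ) else 0) := by
    intro u
    apply Finset.sum_nonneg
    intro s _
    split_ifs <;> positivity
  refine le_trans (Finset.sum_le_sum (g := fun u => ∑ s ∈ Finset.range D, r ^ s *
        (if Near G s x u (fun v => (δ v : ℕ)) then (1 : ℝ) else 0)) ?_)
    (Finset.sum_le_sum_of_subset_of_nonneg (Finset.filter_subset _ _) fun u _ _ => hnn u)
  intro u hu
  rw [Finset.mem_filter] at hu
  have hne : (cl ctr u).Nonempty := ⟨u, mem_cl.mpr hu.2⟩
  obtain ⟨y, hy, hdy⟩ := exists_dset (G := G) hne x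
  rw [mem_cl] at hy
  have hN := hnear x y
  rw [hy, hdy] at hN
  have hs : dset G (cl ctr u) x ∈ Finset.range D := by
    rw [Finset.mem_range, ← hdy]
    exact hDlt x y
  refine le_trans (le_of_eq ?_) (Finset.single_le_sum (f := fun s => r ^ s *
        (if Near G s x u (fun v => (δ v : ℕ)) then (1 : ℝ) else 0)) (fun s _ => by
          split_ifs <;> positivity) hs)
  rw [if_pos hN, mul_one]

end Pool.MP_10effd_pr
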