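import Pool.Agent.MP_10effd_pr.Decomp

set_option autoImplicit false
set_option linter.unusedSectionVars false

namespace Pool.MP_10effd_pr

open Finset

/-- Truncated geometric weights on `0, …, M`. -/
noncomputable def gw (q : ℝ) (M k : ℕ) : ℝ := if k < M then q ^ k * (1 - q) else q ^ M

theorem gw_nonneg {q : ℝ} (hq0 : 0 < q) (hq1 : q < 1) (M k : ℕ) : 0 ≤ gw q M k := by
  unfold gw
  have : 0 ≤ 1 - q := by linarith
  split_ifs <;> positivity

theorem gw_pos {q : ℝ} (hq0 : 0 < q) (hq1 : q < 1) (M k : ℕ) : 0 < gw q M k := by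
  unfold gw
  have : 0 < 1 - q := by linarith
  split_ifs <;> positivity

theorem tail_aux (q : ℝ) (j : ℕ) : ∀ M : ℕ,
    (∑ k ∈ Finset.range M, if j ≤ k then q ^ k * (1 - q) else 0) + (if j ≤ M then q ^ M else 0)
      = if j ≤ M then q ^ j else 0 := by
  intro M
  induction M with
  | zero =>
    by_cases h : j ≤ 0
    · have : j = 0 := by omega
      subst this; simp
    · simp [h]
  | succ M ih =>
    rw [Finset.sum_range_succ]
    by_cases h1 : j ≤ M
    · have h2 : j ≤ M + 1 := by omega
      rw [if_pos h1] at ih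
      rw [if_pos h1] at ih
      rw [if_pos h1, if_pos h2, if_pos h2]
      rw [pow_succ]
      linarith
    · rw [if_neg h1] at ih
      rw [if_neg h1] at ih
      rw [if_neg h1]
      by_cases h2 : j ≤ M + 1
      · have : j = M + 1 := by omega
        rw [if_pos h2, if_pos h2, this]
        have : (∑ k ∈ Finset.range M, if j ≤ k then q ^ k * (1 - q) else 0) = 0 := by linarith
        rw [this] at *
        subst j
        linarith
      · rw [if_neg h2, if_neg h2]
        linarith

/-- The tail of the truncated geometric law. -/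
theorem tail (q : ℝ) (M j : ℕ) :
    (∑ k : Fin (M + 1), if j ≤ (k : ℕ) then gw q M k else 0) = if j ≤ M then q ^ j else 0 := by
  rw [← tail_aux q j M, ← Finset.sum_range (fun k => if j ≤ k then gw q M k else 0),
    Finset.sum_range_succ]
  congr 1
  · apply Finset.sum_congr rfl
    intro k hk
    rw [Finset.mem_range] at hk
    simp only [gw, if_pos hk]
  · simp [gw]

theorem gw_sum (q : ℝ) (M : ℕ) : ∑ k : Fin (M + 1), gw q M k = 1 := by
  have := tail q M 0
  simpa using this

variable {V : Type} [Fintype V] [DecidableEq V]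

/-- Product weight. -/
noncomputable def pw (q : ℝ) (M : ℕ) (δ : V → Fin (M + 1)) : ℝ := ∏ v, gw q M (δ v)

theorem pw_nonneg {q : ℝ} (hq0 : 0 < q) (hq1 : q < 1) (M : ℕ) (δ : V → Fin (M + 1)) :
    0 ≤ pw q M δ := Finset.prod_nonneg fun v _ => gw_nonneg hq0 hq1 M _

theorem pw_pos {q : ℝ} (hq0 : 0 < q) (hq1 : q < 1) (M : ℕ) (δ : V → Fin (M + 1)) :
    0 < pw q M δ := Finset.prod_pos fun v _ => gw_pos hq0 hq1 M _

theorem pw_sum (q : ℝ) (M : ℕ) : ∑ δ : V → Fin (M + 1), pw q M δ = 1 := by
  have := Finset.prod_univ_sum (fun _ : V => (Finset.univ : Finset (Fin (M + 1))))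
    (fun _ k => gw q M (k : ℕ))
  rw [Fintype.piFinset_univ] at this
  unfold pw
  rw [← this]
  simp [gw_sum]

theorem resample (q : ℝ) (M : ℕ) (v : V) (f : (V → Fin (M + 1)) → ℝ) :
    ∑ δ, pw q M δ * f δ
      = ∑ δ, pw q M δ * ∑ k : Fin (M + 1), gw q M k * f (Function.update δ v k) := by
  have e1 : ∑ δ, pw q M δ * f δ
      = ∑ p : (V → Fin (M + 1)) × Fin (M + 1), (pw q M p.1 * gw q M p.2) * f p.1 := by
    rw [Fintype.sum_prod_type]
    apply Finset.sum_congr rfl
    intro δ _
    have : ∀ k : Fin (M + 1), pw q M δ * gw q M k * f δ = gw q M k * (pw q M δ * f δ) := by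
      intro k; ring
    simp only [this]
    rw [← Finset.sum_mul, gw_sum, one_mul]
  have e2 : ∑ δ, pw q M δ * ∑ k : Fin (M + 1), gw q M k * f (Function.update δ v k)
      = ∑ p : (V → Fin (M + 1)) × Fin (M + 1),
        (pw q M p.1 * gw q M p.2) * f (Function.update p.1 v p.2) := by
    rw [Fintype.sum_prod_type]
    apply Finset.sum_congr rfl
    intro δ _
    rw [Finset.mul_sum]
    apply Finset.sum_congr rfl
    intro k _
    ring
  rw [e1, e2]
  let e : ((V → Fin (M + 1)) × Fin (M + 1)) → ((V → Fin (M + 1)) × Fin (M + 1)) :=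
    fun p => (Function.update p.1 v p.2, p.1 v)
  have he : Function.Involutive e := by
    rintro ⟨δ, k⟩
    simp [e]
  have hw : ∀ p : (V → Fin (M + 1)) × Fin (M + 1),
      pw q M (e p).1 * gw q M (e p).2 = pw q M p.1 * gw q M p.2 := by
    rintro ⟨δ, k⟩
    simp only [e, pw]
    rw [← Finset.mul_prod_erase Finset.univ (fun w => gw q M (Function.update δ v k w))
      (Finset.mem_univ v), ← Finset.mul_prod_erase Finset.univ (fun w => gw q M (δ w))
      (Finset.mem_univ v)]
    have : ∏ w ∈ Finset.univ.erase v, gw q M (Function.update δ v k w)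
        = ∏ w ∈ Finset.univ.erase v, gw q M (δ w) := by
      apply Finset.prod_congr rfl
      intro w hw
      rw [Function.update_of_ne (Finset.ne_of_mem_erase hw)]
    rw [this]
    simp only [Function.update_self]
    ring
  rw [← Equiv.sum_comp (he.toPerm e)]
  apply Finset.sum_congr rfl
  intro p _
  have : (he.toPerm e) p = e p := rfl
  rw [this, hw p]

end Pool.MP_10effd_pr
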