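import Mathlib

set_option autoImplicit false
set_option linter.unusedSectionVars false

namespace Pool.MP_10effd_pr

open Finset

variable {V : Type} [Fintype V] [DecidableEq V] (G : SimpleGraph V) [DecidableRel G.Adj]

/-- Finite-horizon optimal value: the least expected number of steps, among the first `m`,
before everything is visited, when the walk is at `x` and `S` has been visited. -/
noncomputable def val (ε : ℝ) : ℕ → V → Finset V → ℝ
  | 0, _, _ => 0
  | m + 1, x, S =>
      if S = Finset.univ then 0 else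
        1 + (1 - ε) * ((∑ y ∈ G.neighborFinset x, val ε m y (insert y S)) / (G.degree x : ℝ))
          + ε * ⨅ y : {y // G.Adj x y}, val ε m y.1 (insert y.1 S)

variable {G} {ε : ℝ}

/-- A transition kernel that dominates `(1-ε)` times simple random walk. -/
structure Ker (G : SimpleGraph V) [DecidableRel G.Adj] (ε : ℝ) (P : V → V → ℝ) : Prop where
  supp : ∀ x y, ¬ G.Adj x y → P x y = 0
  lower : ∀ x y, G.Adj x y → (1 - ε) / (G.degree x : ℝ) ≤ P x y
  sum_one : ∀ x, ∑ y, P x y = 1

theorem inf_le {x y : V} (h : G.Adj x y) (F : V → ℝ) :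
    (⨅ y : {y // G.Adj x y}, F y.1) ≤ F y :=
  ciInf_le (Set.finite_range _).bddBelow (⟨y, h⟩ : {y // G.Adj x y})

theorem exists_inf {x : V} (hx : 0 < G.degree x) (F : V → ℝ) :
    ∃ y, G.Adj x y ∧ F y = ⨅ y : {y // G.Adj x y}, F y.1 := by
  have hne : Nonempty {y // G.Adj x y} := by
    rw [G.degree_pos_iff_exists_adj] at hx
    obtain ⟨y, hy⟩ := hx
    exact ⟨⟨y, hy⟩⟩
  obtain ⟨y, hy⟩ := exists_eq_ciInf_of_finite (f := fun y : {y // G.Adj x y} => F y.1)
  exact ⟨y.1, y.2, hy⟩

theorem inf_mono {x : V} (hx : 0 < G.degree x) {F F' : V → ℝ}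
    (h : ∀ y, G.Adj x y → F y ≤ F' y) :
    (⨅ y : {y // G.Adj x y}, F y.1) ≤ ⨅ y : {y // G.Adj x y}, F' y.1 := by
  obtain ⟨y, hy, hy'⟩ := exists_inf hx F'
  rw [← hy']
  exact (inf_le hy F).trans (h y hy)

theorem inf_nonneg {x : V} (hx : 0 < G.degree x) {F : V → ℝ}
    (h : ∀ y, G.Adj x y → 0 ≤ F y) :
    0 ≤ ⨅ y : {y // G.Adj x y}, F y.1 := by
  obtain ⟨y, hy, hy'⟩ := exists_inf hx F
  rw [← hy']
  exact h y hy

theorem val_nonneg (h0 : 0 < ε) (h1 : ε < 1) (hd : ∀ x, 0 < G.degree x) :
    ∀ (m : ℕ) (x : V) (S : Finset V), 0 ≤ val G ε m x S := by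
  intro m
  induction m with
  | zero => intro x S; simp [val]
  | succ m ih =>
    intro x S
    rw [val]
    split_ifs with h
    · exact le_rfl
    · have h2 : 0 ≤ ∑ y ∈ G.neighborFinset x, val G ε m y (insert y S) :=
        Finset.sum_nonneg fun y _ => ih _ _
      have h3 := inf_nonneg (F := fun y => val G ε m y (insert y S)) (hd x) fun y _ => ih _ _
      have h4 : 0 ≤ (∑ y ∈ G.neighborFinset x, val G ε m y (insert y S)) / (G.degree x : ℝ) := by
        positivity
      have h5 : 0 ≤ 1 - ε := by linarith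
      have := mul_nonneg h5 h4
      have := mul_nonneg h0.le h3
      linarith

theorem val_univ (m : ℕ) (x : V) : val G ε m x Finset.univ = 0 := by
  cases m <;> simp [val]

theorem val_succ_mono (h0 : 0 < ε) (h1 : ε < 1) (hd : ∀ x, 0 < G.degree x) :
    ∀ (m : ℕ) (x : V) (S : Finset V), val G ε m x S ≤ val G ε (m + 1) x S := by
  intro m
  induction m with
  | zero => intro x S; rw [val]; exact val_nonneg h0 h1 hd _ _ _
  | succ m ih =>
    intro x S
    rw [val]
    conv_rhs => rw [val]
    split_ifs with h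
    · exact le_rfl
    · have h2 : ∑ y ∈ G.neighborFinset x, val G ε m y (insert y S)
          ≤ ∑ y ∈ G.neighborFinset x, val G ε (m + 1) y (insert y S) :=
        Finset.sum_le_sum fun y _ => ih _ _
      have h3 := inf_mono (F := fun y => val G ε m y (insert y S))
        (F' := fun y => val G ε (m + 1) y (insert y S)) (hd x) fun y _ => ih _ _
      have h5 : 0 ≤ 1 - ε := by linarith
      have h6 := div_le_div_of_nonneg_right h2 (Nat.cast_nonneg (α := ℝ) (G.degree x))
      have := mul_le_mul_of_nonneg_left h6 h5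
      have := mul_le_mul_of_nonneg_left h3 h0.le
      linarith

theorem val_mono (h0 : 0 < ε) (h1 : ε < 1) (hd : ∀ x, 0 < G.degree x)
    (x : V) (S : Finset V) : Monotone fun m => val G ε m x S :=
  monotone_nat_of_le_succ fun m => val_succ_mono h0 h1 hd m x S

theorem val_anti (h0 : 0 < ε) (h1 : ε < 1) (hd : ∀ x, 0 < G.degree x) :
    ∀ (m : ℕ) (x : V) (S S' : Finset V), S ⊆ S' → val G ε m x S' ≤ val G ε m x S := by
  intro m
  induction m with
  | zero => intro x S S' _; simp [val]
  | succ m ih =>
    intro x S S' hS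
    by_cases h : S' = Finset.univ
    · rw [h, val_univ]; exact val_nonneg h0 h1 hd _ _ _
    · have h' : S ≠ Finset.univ := by
        rintro rfl
        exact h (Finset.univ_subset_iff.mp hS)
      rw [val, val, if_neg h, if_neg h']
      have h2 : ∑ y ∈ G.neighborFinset x, val G ε m y (insert y S')
          ≤ ∑ y ∈ G.neighborFinset x, val G ε m y (insert y S) :=
        Finset.sum_le_sum fun y _ => ih _ _ _ (Finset.insert_subset_insert y hS)
      have h3 := inf_mono (F := fun y => val G ε m y (insert y S'))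
        (F' := fun y => val G ε m y (insert y S)) (hd x)
          fun y _ => ih _ _ _ (Finset.insert_subset_insert y hS)
      have h5 : 0 ≤ 1 - ε := by linarith
      have h6 := div_le_div_of_nonneg_right h2 (Nat.cast_nonneg (α := ℝ) (G.degree x))
      have := mul_le_mul_of_nonneg_left h6 h5
      have := mul_le_mul_of_nonneg_left h3 h0.le
      linarith

theorem Ker.nonneg {P : V → V → ℝ} (hP : Ker G ε P) (h1 : ε < 1) (x y : V) : 0 ≤ P x y := by
  by_cases h : G.Adj x y
  · refine le_trans ?_ (hP.lower x y h)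
    have : 0 ≤ 1 - ε := by linarith
    positivity
  · rw [hP.supp x y h]

theorem Ker.sum_nbr {P : V → V → ℝ} (hP : Ker G ε P) (x : V) (F : V → ℝ) :
    ∑ y ∈ G.neighborFinset x, P x y * F y = ∑ y, P x y * F y := by
  apply Finset.sum_subset (Finset.subset_univ _)
  intro y _ hy
  rw [SimpleGraph.mem_neighborFinset] at hy
  rw [hP.supp x y hy, zero_mul]

theorem val_le_ker {P : V → V → ℝ} (hP : Ker G ε P) (h0 : 0 < ε) (h1 : ε < 1)
    (hd : ∀ x, 0 < G.degree x) (m : ℕ) (x : V) (S : Finset V) :
    val G ε (m + 1) x S ≤ 1 + ∑ y, P x y * val G ε m y (insert y S) := by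
  have hn : 0 ≤ ∑ y, P x y * val G ε m y (insert y S) :=
    Finset.sum_nonneg fun y _ => mul_nonneg (hP.nonneg h1 x y) (val_nonneg h0 h1 hd _ _ _)
  rw [val]
  split_ifs with h
  · linarith
  · rw [← hP.sum_nbr x (fun y => val G ε m y (insert y S))]
    set F : V → ℝ := fun y => val G ε m y (insert y S) with hF
    set I := ⨅ y : {y // G.Adj x y}, F y.1 with hI
    have hdeg : (0 : ℝ) < G.degree x := by exact_mod_cast hd x
    have hs1 : ∑ y ∈ G.neighborFinset x, P x y = 1 := by
      have := hP.sum_nbr x (fun _ => (1 : ℝ))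
      simp only [mul_one] at this
      rw [this, hP.sum_one]
    have key : ∑ y ∈ G.neighborFinset x, (P x y - (1 - ε) / (G.degree x : ℝ)) * I
        ≤ ∑ y ∈ G.neighborFinset x, (P x y - (1 - ε) / (G.degree x : ℝ)) * F y := by
      apply Finset.sum_le_sum
      intro y hy
      rw [SimpleGraph.mem_neighborFinset] at hy
      exact mul_le_mul_of_nonneg_left (inf_le hy F) (sub_nonneg.mpr (hP.lower x y hy))
    have e1 : ∑ y ∈ G.neighborFinset x, (P x y - (1 - ε) / (G.degree x : ℝ)) * I = ε * I := by
      rw [← Finset.sum_mul, Finset.sum_sub_distrib, hs1, Finset.sum_const,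
        SimpleGraph.card_neighborFinset_eq_degree, nsmul_eq_mul]
      field_simp
      ring
    have e2 : ∑ y ∈ G.neighborFinset x, (P x y - (1 - ε) / (G.degree x : ℝ)) * F y
        = ∑ y ∈ G.neighborFinset x, P x y * F y
          - (1 - ε) * ((∑ y ∈ G.neighborFinset x, F y) / (G.degree x : ℝ)) := by
      simp only [sub_mul, Finset.sum_sub_distrib, ← Finset.mul_sum]
      ring
    rw [e1, e2] at key
    have : ∑ y ∈ G.neighborFinset x, val G ε m y (insert y S) = ∑ y ∈ G.neighborFinset x, F y := rfl
    linarith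

/-- Hitting lemma. -/
theorem val_hit {P : V → V → ℝ} (hP : Ker G ε P) (h0 : 0 < ε) (h1 : ε < 1)
    (hd : ∀ x, 0 < G.degree x) {z : V} {h : V → ℝ} (hz : h z = 0) (hpos : ∀ x, 0 ≤ h x)
    (hsup : ∀ x, x ≠ z → 1 + ∑ y, P x y * h y ≤ h x) :
    ∀ (m : ℕ) (x : V) (S : Finset V), x ∈ S → val G ε m x S ≤ h x + val G ε m z (insert z S) := by
  intro m
  induction m with
  | zero => intro x S _; simp only [val]; linarith [hpos x]
  | succ m ih =>
    intro x S hx
    by_cases hxz : x = z
    · subst hxz
      rw [Finset.insert_eq_of_mem hx, hz, zero_add]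
    · refine (val_le_ker hP h0 h1 hd m x S).trans ?_
      have e : ∑ y, P x y * val G ε m y (insert y S)
          ≤ ∑ y, P x y * (h y + val G ε m z (insert z S)) := by
        apply Finset.sum_le_sum
        intro y _
        apply mul_le_mul_of_nonneg_left _ (hP.nonneg h1 x y)
        refine (ih y (insert y S) (Finset.mem_insert_self _ _)).trans ?_
        have := val_anti h0 h1 hd m z (insert z S) (insert z (insert y S))
          (Finset.insert_subset_insert z (Finset.subset_insert y S))
        linarith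
      have e2 : ∑ y, P x y * (h y + val G ε m z (insert z S))
          = ∑ y, P x y * h y + val G ε m z (insert z S) := by
        simp only [mul_add, Finset.sum_add_distrib, ← Finset.sum_mul]
        rw [hP.sum_one, one_mul]
      have := hsup x hxz
      have := val_succ_mono h0 h1 hd m z (insert z S)
      linarith

/-- From `y` one can visit all of `A` and be back at `y` at cost `q`, in every situation. -/
def Cov (G : SimpleGraph V) [DecidableRel G.Adj] (ε : ℝ) (y : V) (A : Finset V) (q : ℝ) : Prop :=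
  ∀ (m : ℕ) (S : Finset V), y ∈ S → val G ε m y S ≤ q + val G ε m y (S ∪ A)

theorem Cov.mono {y : V} {A : Finset V} {q q' : ℝ} (h : Cov G ε y A q) (hq : q ≤ q') :
    Cov G ε y A q' := fun m S hS => (h m S hS).trans (by linarith)

theorem Cov.self (y : V) : Cov G ε y {y} 0 := by
  intro m S hS
  have : S ∪ {y} = S := by
    rw [Finset.union_eq_left]; simpa using hS
  rw [this, zero_add]

theorem Cov.subset (h0 : 0 < ε) (h1 : ε < 1) (hd : ∀ x, 0 < G.degree x)
    {y : V} {A B : Finset V} {q : ℝ} (h : Cov G ε y A q) (hB : B ⊆ A) : Cov G ε y B q :=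
  fun m S hS => (h m S hS).trans (by
    have := val_anti h0 h1 hd m y (S ∪ B) (S ∪ A) (Finset.union_subset_union le_rfl hB)
    linarith)

end Pool.MP_10effd_pr
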